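import Mathlib

/-! # Almost all tuples are generic -/

set_option autoImplicit false

namespace Pool.Agent.U974.PP

open Finset

variable {K : ℕ}

/-- all the vectors with entries below `Y` -/
def Om (K Y : ℕ) : Finset (Fin K → ℕ) := Fintype.piFinset (fun _ : Fin K => range Y)

theorem mem_Om {Y : ℕ} {u : Fin K → ℕ} : u ∈ Om K Y ↔ ∀ i, u i < Y := by
  unfold Om
  rw [Fintype.mem_piFinset]
  simp only [mem_range]

theorem card_box (D : Finset (Fin K)) (c Y : ℕ) :
    (Fintype.piFinset (fun i => if i ∈ D then range c else range Y)).card = c ^ D.card * Y ^ (K - D.card) := by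
  classical
  rw [Fintype.card_piFinset]
  have h1 : ∀ i, (if i ∈ D then range c else range Y).card = if i ∈ D then c else Y := by
    intro i
    split_ifs <;> simp
  simp only [h1]
  rw [Finset.prod_ite, Finset.prod_const, Finset.prod_const]
  have h2 : (univ.filter (fun i => i ∈ D)) = D := by
    ext i
    simp
  have h3 : (univ.filter (fun i => i ∉ D)) = Dᶜ := by
    ext i
    simp
  rw [h2, h3, Finset.card_compl, Fintype.card_fin]

theorem card_one (i j : Fin K) (hij : i ≠ j) (d Y : ℕ) :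
    ((Om K Y).filter (fun u => u j = u i + d)).card ≤ Y ^ (K - 1) := by
  classical
  have h := card_box {j} 1 Y
  rw [card_singleton, one_pow, one_mul] at h
  rw [← h]
  apply Finset.card_le_card_of_injOn (fun u => Function.update u j 0)
  · intro u hu
    have hu1 := mem_Om.1 (mem_filter.1 (mem_coe.1 hu)).1
    rw [Finset.mem_coe, Fintype.mem_piFinset]
    intro k
    show Function.update u j 0 k ∈ _
    by_cases hk : k = j
    · subst hk
      simp
    · rw [Function.update_of_ne hk, if_neg (by simpa using hk)]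
      exact mem_range.2 (hu1 k)
  · intro u hu v hv huv
    have hu := (mem_filter.1 (mem_coe.1 hu)).2
    have hv := (mem_filter.1 (mem_coe.1 hv)).2
    have h1 : ∀ k, k ≠ j → u k = v k := by
      intro k hk
      have := congrFun huv k
      simpa [Function.update_of_ne hk] using this
    funext k
    by_cases hk : k = j
    · rw [hk, hu, hv, h1 i hij]
    · exact h1 k hk

theorem eq_of_div_mod {x y q : ℕ} (h1 : x / q = y / q) (h2 : x ≡ y [MOD q]) : x = y := by
  have h3 := Nat.div_add_mod x q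
  have h4 := Nat.div_add_mod y q
  unfold Nat.ModEq at h2
  rw [h1, h2] at h3
  omega

theorem card_two (a a' b b' : Fin K) (hab : a ≠ b) (haa : a ≠ a') (hbb : b ≠ b') (hba : b' ≠ a) (q Y : ℕ) :
    ((Om K Y).filter (fun u => u a ≡ u a' [MOD q] ∧ u b ≡ u b' [MOD q])).card ≤
      (Y / q + 1) ^ 2 * Y ^ (K - 2) := by
  classical
  have h := card_box {a, b} (Y / q + 1) Y
  rw [card_pair hab] at h
  rw [← h]
  apply Finset.card_le_card_of_injOn (fun u => Function.update (Function.update u b (u b / q)) a (u a / q))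
  · intro u hu
    have hu1 := mem_Om.1 (mem_filter.1 (mem_coe.1 hu)).1
    rw [Finset.mem_coe, Fintype.mem_piFinset]
    intro k
    show Function.update (Function.update u b (u b / q)) a (u a / q) k ∈ _
    by_cases hk : k = a
    · subst hk
      rw [Function.update_self, if_pos (by simp)]
      exact mem_range.2 (Nat.lt_succ_of_le (Nat.div_le_div_right (hu1 k).le))
    · rw [Function.update_of_ne hk]
      by_cases hk2 : k = b
      · subst hk2
        rw [Function.update_self, if_pos (by simp)]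
        exact mem_range.2 (Nat.lt_succ_of_le (Nat.div_le_div_right (hu1 k).le))
      · rw [Function.update_of_ne hk2, if_neg (by simp [hk, hk2])]
        exact mem_range.2 (hu1 k)
  · intro u hu v hv huv
    obtain ⟨hu1, hu2⟩ := (mem_filter.1 (mem_coe.1 hu)).2
    obtain ⟨hv1, hv2⟩ := (mem_filter.1 (mem_coe.1 hv)).2
    have h1 : ∀ k, k ≠ a → k ≠ b → u k = v k := by
      intro k hk hk2
      have := congrFun huv k
      simpa [Function.update_of_ne hk, Function.update_of_ne hk2] using this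
    have h2 : u b / q = v b / q := by
      have := congrFun huv b
      simpa [Function.update_of_ne hab.symm] using this
    have h3 : u a / q = v a / q := by
      have := congrFun huv a
      simpa using this
    have hb' : u b' = v b' := h1 b' hba hbb.symm
    have hb : u b = v b := by
      apply eq_of_div_mod h2
      rw [hb'] at hu2
      exact hu2.trans hv2.symm
    have ha' : u a' = v a' := by
      by_cases h4 : a' = b
      · rw [h4, hb]
      · exact h1 a' haa.symm h4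
    have ha : u a = v a := by
      apply eq_of_div_mod h3
      rw [ha'] at hu1
      exact hu1.trans hv1.symm
    funext k
    by_cases hk : k = a
    · rw [hk, ha]
    · by_cases hk2 : k = b
      · rw [hk2, hb]
      · exact h1 k hk hk2

/-- two differences have a common prime factor above `z` -/
def Bad2 (z : ℕ) (u : Fin K → ℕ) : Prop := ∃ q : ℕ, q.Prime ∧ z < q ∧ ∃ i j k l : Fin K, i ≠ j ∧ k ≠ l ∧
  ¬ (i = k ∧ j = l) ∧ ¬ (i = l ∧ j = k) ∧ u i ≡ u j [MOD q] ∧ u k ≡ u l [MOD q]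

/-- the quadruples of indices -/
def Val (π : Fin K × Fin K × Fin K × Fin K) : Prop :=
  π.1 ≠ π.2.2.1 ∧ π.1 ≠ π.2.1 ∧ π.2.2.1 ≠ π.2.2.2 ∧ π.2.2.2 ≠ π.1

open Classical in
theorem card_bad2 (z Y : ℕ) (hK : 2 ≤ K) :
    (((Om K Y).filter (fun u => Function.Injective u ∧ Bad2 z u)).card : ℝ) ≤
      8 * (K : ℝ) ^ 4 * (Y : ℝ) ^ K / (z + 1) := by
  have hsub : (Om K Y).filter (fun u => Function.Injective u ∧ Bad2 z u) ⊆
      (Ioo z Y).biUnion (fun q => (univ.filter (Val (K := K))).biUnion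
        (fun π => (Om K Y).filter (fun u => u π.1 ≡ u π.2.1 [MOD q] ∧ u π.2.2.1 ≡ u π.2.2.2 [MOD q]))) := by
    intro u hu
    obtain ⟨h1, hinj, q, hq, hz, i, j, k, l, hij, hkl, h3, h4, h5, h6⟩ := mem_filter.1 hu
    have hqY : q < Y := by
      have hi := mem_Om.1 h1 i
      have hj := mem_Om.1 h1 j
      have hne : u i ≠ u j := fun h => hij (hinj h)
      rcases lt_or_gt_of_ne hne with h | h
      · have h7 := (Nat.modEq_iff_dvd' h.le).1 h5
        have := Nat.le_of_dvd (by omega) h7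
        omega
      · have h7 := (Nat.modEq_iff_dvd' h.le).1 h5.symm
        have := Nat.le_of_dvd (by omega) h7
        omega
    refine mem_biUnion.2 ⟨q, mem_Ioo.2 ⟨hz, hqY⟩, ?_⟩
    by_cases hik : i = k ∨ i = l
    · have hjk : j ≠ k ∧ j ≠ l := by
        rcases hik with h | h
        · exact ⟨fun h' => hij (h.trans h'.symm), fun h' => h3 ⟨h, h'⟩⟩
        · exact ⟨fun h' => h4 ⟨h, h'⟩, fun h' => hij (h.trans h'.symm)⟩
      refine mem_biUnion.2 ⟨(j, i, k, l), mem_filter.2 ⟨mem_univ _, hjk.1, hij.symm, hkl, hjk.2.symm⟩, ?_⟩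
      exact mem_filter.2 ⟨h1, h5.symm, h6⟩
    · push Not at hik
      refine mem_biUnion.2 ⟨(i, j, k, l), mem_filter.2 ⟨mem_univ _, hik.1, hij, hkl, hik.2.symm⟩, ?_⟩
      exact mem_filter.2 ⟨h1, h5, h6⟩
  have h1 : ((Om K Y).filter (fun u => Function.Injective u ∧ Bad2 z u)).card ≤
      ∑ q ∈ Ioo z Y, K ^ 4 * ((Y / q + 1) ^ 2 * Y ^ (K - 2)) := by
    refine (card_le_card hsub).trans (card_biUnion_le.trans (sum_le_sum fun q _ => ?_))
    refine card_biUnion_le.trans ?_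
    have h2 : ∑ π ∈ univ.filter (Val (K := K)),
        ((Om K Y).filter (fun u => u π.1 ≡ u π.2.1 [MOD q] ∧ u π.2.2.1 ≡ u π.2.2.2 [MOD q])).card ≤
        ∑ _π ∈ univ.filter (Val (K := K)), (Y / q + 1) ^ 2 * Y ^ (K - 2) := by
      refine sum_le_sum fun π hπ => ?_
      obtain ⟨-, g1, g2, g3, g4⟩ := mem_filter.1 hπ
      exact card_two π.1 π.2.1 π.2.2.1 π.2.2.2 g1 g2 g3 g4 q Y
    refine h2.trans ?_
    rw [sum_const, smul_eq_mul]
    refine Nat.mul_le_mul_right _ ((card_le_univ _).trans ?_)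
    rw [Fintype.card_prod, Fintype.card_prod, Fintype.card_prod, Fintype.card_fin]
    apply le_of_eq
    ring
  have h2 : (((Om K Y).filter (fun u => Function.Injective u ∧ Bad2 z u)).card : ℝ) ≤
      ∑ q ∈ Ioo z Y, (K : ℝ) ^ 4 * (((Y / q : ℕ) + 1) ^ 2 * (Y : ℝ) ^ (K - 2)) := by
    exact_mod_cast h1
  refine h2.trans ?_
  have h3 : ∀ q ∈ Ioo z Y, (K : ℝ) ^ 4 * (((Y / q : ℕ) + 1) ^ 2 * (Y : ℝ) ^ (K - 2)) ≤
      4 * (K : ℝ) ^ 4 * (Y : ℝ) ^ K * ((q : ℝ) ^ 2)⁻¹ := by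
    intro q hq
    obtain ⟨hq1, hq2⟩ := mem_Ioo.1 hq
    have hq0 : (0 : ℝ) < q := by exact_mod_cast (by omega : 0 < q)
    have h4 : ((Y / q : ℕ) : ℝ) + 1 ≤ 2 * (Y : ℝ) / q := by
      have h5 : ((Y / q : ℕ) : ℝ) ≤ (Y : ℝ) / q := Nat.cast_div_le
      have h6 : (1 : ℝ) ≤ (Y : ℝ) / q := by
        rw [le_div_iff₀ hq0, one_mul]
        exact_mod_cast hq2.le
      have h7 : 2 * (Y : ℝ) / q = (Y : ℝ) / q + (Y : ℝ) / q := by ring
      linarith
    have h5 : (((Y / q : ℕ) : ℝ) + 1) ^ 2 ≤ (2 * (Y : ℝ) / q) ^ 2 := pow_le_pow_left₀ (by positivity) h4 2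
    have h6 : (Y : ℝ) ^ K = (Y : ℝ) ^ 2 * (Y : ℝ) ^ (K - 2) := by
      rw [← pow_add]
      congr 1
      omega
    calc (K : ℝ) ^ 4 * (((Y / q : ℕ) + 1) ^ 2 * (Y : ℝ) ^ (K - 2)) ≤
        (K : ℝ) ^ 4 * ((2 * (Y : ℝ) / q) ^ 2 * (Y : ℝ) ^ (K - 2)) := by gcongr
      _ = 4 * (K : ℝ) ^ 4 * (Y : ℝ) ^ K * ((q : ℝ) ^ 2)⁻¹ := by
        rw [h6, div_pow]
        field_simp
        ring
  refine (sum_le_sum h3).trans ?_
  rw [← mul_sum]
  have h4 := sum_Ioo_inv_sq_le (α := ℝ) z Y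
  calc 4 * (K : ℝ) ^ 4 * (Y : ℝ) ^ K * ∑ q ∈ Ioo z Y, ((q : ℝ) ^ 2)⁻¹ ≤
      4 * (K : ℝ) ^ 4 * (Y : ℝ) ^ K * (2 / (z + 1)) := by gcongr
    _ = 8 * (K : ℝ) ^ 4 * (Y : ℝ) ^ K / (z + 1) := by ring

/-- `d` has a prime factor above `z` to an odd power -/
def Priv (z d : ℕ) : Prop := 0 < d ∧ ∃ q R r : ℕ, q.Prime ∧ z < q ∧ d = q * R * r ^ 2 ∧ ¬ q ∣ R

open Classical in
theorem card_notPriv (z : ℕ) : ∃ C : ℕ, ∀ Y : ℕ,
    ((range Y).filter (fun d => ¬ Priv z d)).card ≤ C * (Nat.sqrt Y + 1) + 1 := by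
  obtain ⟨M, hM⟩ : ∃ M : ℕ, M = ∏ p ∈ (range (z + 1)).filter Nat.Prime, p := ⟨_, rfl⟩
  have hM0 : M ≠ 0 := by
    rw [hM]
    exact (prod_pos fun p hp => (mem_filter.1 hp).2.pos).ne'
  refine ⟨M.divisors.card, fun Y => ?_⟩
  have hsub : (range Y).filter (fun d => ¬ Priv z d) ⊆
      insert 0 ((M.divisors ×ˢ range (Nat.sqrt Y + 1)).image (fun π : ℕ × ℕ => π.2 ^ 2 * π.1)) := by
    intro d hd
    obtain ⟨hd1, hd2⟩ := mem_filter.1 hd
    rcases Nat.eq_zero_or_pos d with h0 | h0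
    · rw [h0]
      exact mem_insert_self _ _
    · apply mem_insert_of_mem
      obtain ⟨a, b, hab, ha⟩ := Nat.sq_mul_squarefree d
      have hb0 : 0 < b := by
        rcases Nat.eq_zero_or_pos b with h | h
        · rw [h] at hab
          simp at hab
          omega
        · exact h
      refine mem_image.2 ⟨(a, b), mem_product.2 ⟨Nat.mem_divisors.2 ⟨?_, hM0⟩, mem_range.2 ?_⟩, hab⟩
      · show a ∣ M
        rw [← Nat.prod_primeFactors_of_squarefree ha, hM]
        apply prod_dvd_prod_of_subset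
        intro q hq
        have hqp := Nat.prime_of_mem_primeFactors hq
        refine mem_filter.2 ⟨mem_range.2 ?_, hqp⟩
        by_contra hcon
        apply hd2
        obtain ⟨R, hR⟩ := Nat.dvd_of_mem_primeFactors hq
        refine ⟨h0, q, R, b, hqp, by omega, ?_, ?_⟩
        · rw [← hab, hR]
          ring
        · intro hqR
          rw [hR] at ha
          have h1 := ha q (Nat.mul_dvd_mul_left q hqR)
          exact hqp.one_lt.ne' (Nat.isUnit_iff.1 h1)
      · have h1 : b ^ 2 ≤ Y := by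
          have h2 : b ^ 2 * 1 ≤ b ^ 2 * a := Nat.mul_le_mul_left _ (Nat.pos_of_ne_zero ha.ne_zero)
          have h3 := mem_range.1 hd1
          omega
        have h2 : b ≤ Nat.sqrt Y := Nat.le_sqrt'.2 h1
        omega
  refine (card_le_card hsub).trans ((card_insert_le _ _).trans ?_)
  refine Nat.add_le_add_right (card_image_le.trans ?_) 1
  rw [card_product, card_range]

/-- some difference has no prime factor above `z` to an odd power -/
def Bad1 (z : ℕ) (u : Fin K → ℕ) : Prop := ∃ i j : Fin K, i ≠ j ∧ ∃ d : ℕ, u j = u i + d ∧ ¬ Priv z d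

open Classical in
theorem card_bad1 (K z : ℕ) : ∃ C : ℕ, ∀ Y : ℕ,
    ((Om K Y).filter (fun u => Bad1 z u)).card ≤ K ^ 2 * ((C * (Nat.sqrt Y + 1) + 1) * Y ^ (K - 1)) := by
  obtain ⟨C, hC⟩ := card_notPriv z
  refine ⟨C, fun Y => ?_⟩
  have hsub : (Om K Y).filter (fun u => Bad1 z u) ⊆
      (univ.filter (fun π : Fin K × Fin K => π.1 ≠ π.2)).biUnion (fun π =>
        ((range Y).filter (fun d => ¬ Priv z d)).biUnion (fun d =>
          (Om K Y).filter (fun u => u π.2 = u π.1 + d))) := by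
    intro u hu
    obtain ⟨h1, i, j, hij, d, hd, hd2⟩ := mem_filter.1 hu
    have hj := mem_Om.1 h1 j
    refine mem_biUnion.2 ⟨(i, j), mem_filter.2 ⟨mem_univ _, hij⟩, mem_biUnion.2 ⟨d, mem_filter.2
      ⟨mem_range.2 (by omega), hd2⟩, mem_filter.2 ⟨h1, hd⟩⟩⟩
  refine (card_le_card hsub).trans (card_biUnion_le.trans ?_)
  have h1 : ∀ π ∈ univ.filter (fun π : Fin K × Fin K => π.1 ≠ π.2),
      (((range Y).filter (fun d => ¬ Priv z d)).biUnion (fun d =>
          (Om K Y).filter (fun u => u π.2 = u π.1 + d))).card ≤ (C * (Nat.sqrt Y + 1) + 1) * Y ^ (K - 1) := by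
    intro π hπ
    refine card_biUnion_le.trans ?_
    refine (sum_le_sum fun d _ => card_one π.1 π.2 (mem_filter.1 hπ).2 d Y).trans ?_
    rw [sum_const, smul_eq_mul]
    exact Nat.mul_le_mul_right _ (hC Y)
  refine (sum_le_sum h1).trans ?_
  rw [sum_const, smul_eq_mul]
  refine Nat.mul_le_mul_right _ ((card_le_univ _).trans ?_)
  rw [Fintype.card_prod, Fintype.card_fin, sq]

open Classical in
/-- **almost all tuples are generic** -/
theorem card_bad (K z : ℕ) (hK : 2 ≤ K) (η : ℝ) (hη : 0 < η) : ∃ Y₀ : ℕ, ∀ Y : ℕ, Y₀ ≤ Y →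
    (((Om K Y).filter (fun u => Bad1 z u ∨ Bad2 z u)).card : ℝ) ≤
      (η + 8 * (K : ℝ) ^ 4 / (z + 1)) * (Y : ℝ) ^ K := by
  obtain ⟨C, hC⟩ := card_bad1 K z
  obtain ⟨Y₀, hY₀⟩ := exists_nat_gt (((K : ℝ) ^ 2 * (2 * C + 1) / η) ^ 2)
  refine ⟨max Y₀ 1, fun Y hY => ?_⟩
  have hY1 : 1 ≤ Y := le_trans (le_max_right _ _) hY
  have hY2 : Y₀ ≤ Y := le_trans (le_max_left _ _) hY
  have hYr : (1 : ℝ) ≤ Y := by exact_mod_cast hY1
  have hsub : (Om K Y).filter (fun u => Bad1 z u ∨ Bad2 z u) ⊆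
      (Om K Y).filter (fun u => Bad1 z u) ∪ (Om K Y).filter (fun u => Function.Injective u ∧ Bad2 z u) := by
    intro u hu
    obtain ⟨h1, h2⟩ := mem_filter.1 hu
    by_cases h3 : Bad1 z u
    · exact mem_union_left _ (mem_filter.2 ⟨h1, h3⟩)
    · refine mem_union_right _ (mem_filter.2 ⟨h1, ?_, h2.resolve_left h3⟩)
      intro i j hij
      by_contra hne
      exact h3 ⟨i, j, hne, 0, by rw [hij, add_zero], fun h => absurd h.1 (lt_irrefl _)⟩
  have h1 : (((Om K Y).filter (fun u => Bad1 z u ∨ Bad2 z u)).card : ℝ) ≤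
      (((Om K Y).filter (fun u => Bad1 z u)).card : ℝ) +
        ((Om K Y).filter (fun u => Function.Injective u ∧ Bad2 z u)).card := by
    exact_mod_cast (card_le_card hsub).trans (card_union_le _ _)
  have h2 := card_bad2 z Y hK
  have h3 : (((Om K Y).filter (fun u => Bad1 z u)).card : ℝ) ≤ η * (Y : ℝ) ^ K := by
    have h4 : (((Om K Y).filter (fun u => Bad1 z u)).card : ℝ) ≤
        (K : ℝ) ^ 2 * ((C * (Nat.sqrt Y + 1) + 1) * (Y : ℝ) ^ (K - 1)) := by exact_mod_cast hC Y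
    refine h4.trans ?_
    have h5 : (Nat.sqrt Y : ℝ) ≤ Real.sqrt Y := Real.nat_sqrt_le_real_sqrt
    have h6 : (1 : ℝ) ≤ Real.sqrt Y := Real.one_le_sqrt.2 hYr
    have h7 : (C * ((Nat.sqrt Y : ℝ) + 1) + 1) ≤ (2 * C + 1) * Real.sqrt Y := by
      have h8 : (0 : ℝ) ≤ C := Nat.cast_nonneg _
      nlinarith
    have h8 : (K : ℝ) ^ 2 * (2 * C + 1) / η ≤ Real.sqrt Y := by
      apply Real.le_sqrt_of_sq_le
      have : (Y₀ : ℝ) ≤ Y := by exact_mod_cast hY2
      linarith
    have h9 : (K : ℝ) ^ 2 * (2 * C + 1) ≤ η * Real.sqrt Y := by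
      rw [div_le_iff₀ hη] at h8
      linarith
    have h10 : Real.sqrt Y * Real.sqrt Y = Y := Real.mul_self_sqrt (by linarith)
    have h11 : (Y : ℝ) ^ K = Y * (Y : ℝ) ^ (K - 1) := by
      rw [← pow_succ']
      congr 1
      omega
    calc (K : ℝ) ^ 2 * ((C * (Nat.sqrt Y + 1) + 1) * (Y : ℝ) ^ (K - 1)) ≤
        (K : ℝ) ^ 2 * (((2 * C + 1) * Real.sqrt Y) * (Y : ℝ) ^ (K - 1)) := by gcongr
      _ = ((K : ℝ) ^ 2 * (2 * C + 1)) * Real.sqrt Y * (Y : ℝ) ^ (K - 1) := by ring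
      _ ≤ (η * Real.sqrt Y) * Real.sqrt Y * (Y : ℝ) ^ (K - 1) := by gcongr
      _ = η * (Real.sqrt Y * Real.sqrt Y) * (Y : ℝ) ^ (K - 1) := by ring
      _ = η * (Y : ℝ) ^ K := by rw [h10, h11]; ring
  have h12 : (η + 8 * (K : ℝ) ^ 4 / (z + 1)) * (Y : ℝ) ^ K =
      η * (Y : ℝ) ^ K + 8 * (K : ℝ) ^ 4 * (Y : ℝ) ^ K / (z + 1) := by ring
  linarith

end Pool.Agent.U974.PP
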