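import Mathlib
import Pool.Agent.U974.TR.Meas

/-! # The primes near `n` are the translates of a set which meets many classes -/

set_option autoImplicit false

namespace Pool.Agent.U974.PP

open Finset
open Pool.Agent.U974.TR

open Classical in
theorem hitsets : ∃ off : ℕ → ℕ, StrictMono off ∧ off 0 = 0 ∧ ∀ (N : ℕ) (t : ℕ → ℕ) (a h₁ : ℕ), 0 < N → 0 < a →
    (∀ i j, i < j → j < off N → t i < t j) → (∀ p : ℕ, p.Prime → p ≤ 2 * off N + 2 → p ∣ a) →
    (∀ i, i < off N → (h₁ + t i).Coprime a) →
    ∃ I : Finset ℕ, (∀ i ∈ I, i < off N) ∧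
      N ≤ 800 * ((range N).filter (fun s => ∃ i ∈ I, off s ≤ i ∧ i < off (s + 1))).card ∧
      ∀ Y : ℕ, {n : ℕ | n ≡ h₁ [MOD a] ∧ Y < n ∧
        ∀ z : ℤ, |z| ≤ Y → (((n : ℤ) + z).toNat.Prime ↔ ∃ i ∈ I, z = t i)}.Infinite := by
  obtain ⟨off, hoff, hoff0, Hc⟩ := classes
  refine ⟨off, hoff, hoff0, fun N t a h₁ hN ha0 htmono hsmall hcop => ?_⟩
  obtain ⟨K, hK⟩ : ∃ K, K = off N := ⟨_, rfl⟩
  rw [← hK] at htmono hsmall hcop
  have hNK : N ≤ K := by rw [hK]; exact hoff.le_apply
  obtain ⟨AA, hAA⟩ : ∃ AA : ℕ → ℕ, AA = fun i => if i < K then a else a * (2 * (i + 1)).factorial := ⟨_, rfl⟩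
  obtain ⟨BB, hBB⟩ : ∃ BB : ℕ → ℕ, BB = fun i => if i < K then h₁ + t i else 1 := ⟨_, rfl⟩
  have hAAlt : ∀ i, i < K → AA i = a := fun i hi => by rw [hAA]; simp [hi]
  have hAAge : ∀ i, K ≤ i → AA i = a * (2 * (i + 1)).factorial := fun i hi => by
    rw [hAA]; simp [not_lt.2 hi]
  have hBBlt : ∀ i, i < K → BB i = h₁ + t i := fun i hi => by rw [hBB]; simp [hi]
  have hBBge : ∀ i, K ≤ i → BB i = 1 := fun i hi => by rw [hBB]; simp [not_lt.2 hi]
  have hAAgt : ∀ i, K ≤ i → a < AA i := by
    intro i hi
    rw [hAAge i hi]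
    have h1 : 2 * (i + 1) ≤ (2 * (i + 1)).factorial := Nat.self_le_factorial _
    have h2 : a * 2 ≤ a * (2 * (i + 1)).factorial := Nat.mul_le_mul_left _ (by omega)
    omega
  have htinj : ∀ i j, i < K → j < K → t i = t j → i = j := by
    intro i j hi hj hij
    rcases lt_trichotomy i j with h | h | h
    · exact absurd hij (htmono i j h hj).ne
    · exact h
    · exact absurd hij.symm (htmono j i h hi).ne
  obtain ⟨I, hPI, hI⟩ := Hc (fun _ => Finset.range N) (fun _ => ⟨0, Finset.mem_range.2 (by omega)⟩)
    (fun i => (AA i : ℤ)) (fun i => (BB i : ℤ)) (by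
      intro i
      have h1 : 0 < AA i := by
        rcases lt_or_ge i K with h | h
        · rw [hAAlt i h]; exact ha0
        · have := hAAgt i h
          omega
      exact_mod_cast h1) (by
      intro i
      rw [Nat.isCoprime_iff_coprime]
      rcases lt_or_ge i K with h | h
      · rw [hAAlt i h, hBBlt i h]
        exact (hcop i h).symm
      · rw [hBBge i h]
        exact Nat.coprime_one_right _) (by
      intro i j hij
      simp only [Prod.mk.injEq, Nat.cast_inj] at hij
      obtain ⟨h1, h2⟩ := hij
      rcases lt_or_ge i K with hi | hi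
      · rcases lt_or_ge j K with hj | hj
        · rw [hBBlt i hi, hBBlt j hj] at h2
          exact htinj i j hi hj (by omega)
        · rw [hAAlt i hi] at h1
          have := hAAgt j hj
          omega
      · rcases lt_or_ge j K with hj | hj
        · rw [hAAlt j hj] at h1
          have := hAAgt i hi
          omega
        · rw [hAAge i hi, hAAge j hj] at h1
          have h3 := Nat.eq_of_mul_eq_mul_left ha0 h1
          have h4 : 2 * (i + 1) = 2 * (j + 1) := by
            rcases lt_trichotomy (2 * (i + 1)) (2 * (j + 1)) with h | h | h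
            · exact absurd h3 (Nat.factorial_lt_of_lt (by omega) h).ne
            · exact h
            · exact absurd h3.symm (Nat.factorial_lt_of_lt (by omega) h).ne
          omega) (by
      intro p hp
      have : Fact p.Prime := ⟨hp⟩
      by_cases hpa : p ∣ a
      · refine ⟨0, fun i hdv => ?_⟩
        have hdv' : p ∣ BB i := by
          have : (p : ℤ) ∣ (BB i : ℤ) := by simpa using hdv
          exact_mod_cast this
        rcases lt_or_ge i K with h | h
        · rw [hBBlt i h] at hdv'
          have h1 := Nat.dvd_gcd hdv' hpa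
          rw [hcop i h] at h1
          exact hp.one_lt.ne' (Nat.eq_one_of_dvd_one h1)
        · rw [hBBge i h] at hdv'
          exact hp.one_lt.ne' (Nat.eq_one_of_dvd_one hdv')
      · have hau : (a : ZMod p) ≠ 0 := by
          rw [Ne, ZMod.natCast_eq_zero_iff]
          exact hpa
        have hpK : 2 * K + 2 < p := by
          by_contra hcon
          push Not at hcon
          exact hpa (hsmall p hp hcon)
        -- the classes to be avoided
        have hex : ∃ z : ZMod p, ∀ i, i < K ∨ 2 * (i + 1) < p → (AA i : ZMod p) * z + (BB i : ZMod p) ≠ 0 := by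
          let B : Finset (ZMod p) := (Finset.range (p / 2)).image
            (fun i : ℕ => -((BB i : ZMod p)) * (AA i : ZMod p)⁻¹)
          have hB : B.card < (Finset.univ : Finset (ZMod p)).card := by
            refine lt_of_le_of_lt Finset.card_image_le ?_
            rw [Finset.card_range, Finset.card_univ, ZMod.card]
            have := hp.two_le
            omega
          obtain ⟨z, _, hz⟩ := Finset.exists_mem_notMem_of_card_lt_card hB
          refine ⟨z, fun i hi h1 => hz ?_⟩
          have hi' : i < p / 2 := by omega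
          by_cases hA0 : (AA i : ZMod p) = 0
          · exfalso
            have hi2 : K ≤ i := by
              by_contra hcon
              push Not at hcon
              rw [hAAlt i hcon] at hA0
              exact hau hA0
            rw [hA0, zero_mul, zero_add, hBBge i hi2] at h1
            simp at h1
          · refine Finset.mem_image.2 ⟨i, Finset.mem_range.2 hi', ?_⟩
            have h2 : (AA i : ZMod p) * z = -(BB i : ZMod p) := eq_neg_of_add_eq_zero_left h1
            rw [← h2, mul_comm (AA i : ZMod p) z, mul_assoc, mul_inv_cancel₀ hA0, mul_one]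
        obtain ⟨z, hz⟩ := hex
        refine ⟨z.val, fun i hdv => ?_⟩
        have hdv' : (AA i : ZMod p) * z + (BB i : ZMod p) = 0 := by
          have h1 := (ZMod.intCast_zmod_eq_zero_iff_dvd _ p).2 hdv
          push_cast at h1
          rw [ZMod.natCast_zmod_val] at h1
          exact h1
        by_cases hi : i < K ∨ 2 * (i + 1) < p
        · exact hz i hi hdv'
        · push Not at hi
          obtain ⟨hi1, hi2⟩ := hi
          have h1 : (AA i : ZMod p) = 0 := by
            rw [ZMod.natCast_eq_zero_iff, hAAge i hi1]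
            exact Dvd.dvd.mul_left (Nat.dvd_factorial hp.pos hi2) _
          rw [h1, zero_mul, zero_add, hBBge i hi1] at hdv'
          simp at hdv')
  -- the hits
  have hE : (Finset.range N).card ≤ 800 * ((Finset.range N).filter (fun t => hits off I t)).card := by
    obtain ⟨j, hj⟩ := hPI.exists
    exact hj
  refine ⟨(Finset.range K).filter (fun i => i ∈ I), ?_, ?_, fun Y => ?_⟩
  · intro i hi
    rw [← hK]
    exact Finset.mem_range.1 (Finset.mem_filter.1 hi).1
  · rw [Finset.card_range] at hE
    refine hE.trans (Nat.mul_le_mul_left _ (Finset.card_le_card ?_))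
    intro s hs
    obtain ⟨h1, i, h2, h3⟩ := Finset.mem_filter.1 hs
    rw [Finset.mem_Ico] at h2
    refine Finset.mem_filter.2 ⟨h1, i, Finset.mem_filter.2 ⟨Finset.mem_range.2 ?_, h3⟩, h2⟩
    have h4 : off (s + 1) ≤ off N := hoff.monotone (by have := Finset.mem_range.1 h1; omega)
    omega
  · let T : Finset (ℤ × ℤ) := (Finset.Icc (-(Y : ℤ)) Y).image (fun z : ℤ => ((a : ℤ), (h₁ : ℤ) + z))
    have hTinf := hI T (by
      intro f hf
      obtain ⟨y, _, rfl⟩ := Finset.mem_image.1 hf
      have h1 : (1 : ℤ) ≤ (a : ℤ) := by exact_mod_cast ha0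
      exact h1)
    have hXinf := hTinf.sdiff (Set.finite_le_nat Y)
    have himg := hXinf.image (f := fun x => a * x + h₁) (by
      intro x _ y _ hxy
      simp only at hxy
      exact Nat.eq_of_mul_eq_mul_left ha0 (by omega))
    refine himg.mono ?_
    rintro n ⟨x, ⟨hx1, hx2⟩, rfl⟩
    simp only at hx1 hx2 ⊢
    refine ⟨?_, ?_, fun z hz => ?_⟩
    · have h1 : a * x + h₁ ≡ 0 + h₁ [MOD a] := (Nat.modEq_zero_iff_dvd.2 (Dvd.intro _ rfl)).add_right _
      rwa [zero_add] at h1
    · have hx3 : ¬ x ≤ Y := hx2
      have h6 : x ≤ a * x := Nat.le_mul_of_pos_left _ ha0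
      omega
    · have h1 := hx1 ((a : ℤ), (h₁ : ℤ) + z) (Finset.mem_image.2 ⟨z, Finset.mem_Icc.2 (abs_le.1 hz), rfl⟩)
      have h2 : (a : ℤ) * x + ((h₁ : ℤ) + z) = ((a * x + h₁ : ℕ) : ℤ) + z := by push_cast; ring
      simp only [h2] at h1
      rw [h1]
      constructor
      · rintro ⟨i, hi, hf⟩
        simp only [Prod.mk.injEq, Nat.cast_inj] at hf
        obtain ⟨h3, h4⟩ := hf
        have hiK : i < K := by
          by_contra hcon
          push Not at hcon
          have := hAAgt i hcon
          omega
        rw [hBBlt i hiK] at h4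
        refine ⟨i, Finset.mem_filter.2 ⟨Finset.mem_range.2 hiK, hi⟩, ?_⟩
        push_cast at h4
        linarith
      · rintro ⟨i, hi, hz2⟩
        obtain ⟨hi1, hi2⟩ := Finset.mem_filter.1 hi
        have hiK := Finset.mem_range.1 hi1
        refine ⟨i, hi2, ?_⟩
        rw [hAAlt i hiK, hBBlt i hiK, hz2]
        push_cast
        rfl

end Pool.Agent.U974.PP
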