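import Mathlib

/-! # A residue class in which the Legendre symbols between the translates by a generic set are prescribed -/

set_option autoImplicit false

namespace Pool.Agent.U974.PP

open Finset

/-- a class avoiding a set with a prescribed symbol -/
theorem class_exists' {q : ℕ} (hq : q.Prime) (hq2 : q ≠ 2) (T : Finset ℕ) (hqT : 2 * T.card + 2 < q) (s : ℕ)
    (κ : ℤ) (hκ : κ = 1 ∨ κ = -1) :
    ∃ x : ℕ, (∀ s' ∈ T, ¬ q ∣ x + s') ∧ jacobiSym ((x + s : ℕ) : ℤ) q = κ := by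
  classical
  have : Fact q.Prime := ⟨hq⟩
  obtain ⟨g, hg0, hgκ⟩ : ∃ g : ZMod q, g ≠ 0 ∧ quadraticChar (ZMod q) g = κ := by
    rcases hκ with rfl | rfl
    · exact ⟨1, one_ne_zero, by simp⟩
    · obtain ⟨g, hg⟩ := FiniteField.exists_nonsquare (F := ZMod q) (by
        rw [ZMod.ringChar_zmod_n]
        exact hq2)
      exact ⟨g, fun h => hg (h ▸ ⟨0, by simp⟩), quadraticChar_neg_one_iff_not_isSquare.2 hg⟩
  let A : Finset (ZMod q) := (Finset.Icc 1 (T.card + 1)).image (fun v : ℕ => g * (v : ZMod q) ^ 2 - s)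
  let B : Finset (ZMod q) := T.image (fun s' : ℕ => -(s' : ZMod q))
  have hA : A.card = T.card + 1 := by
    have h1 : A.card = (Finset.Icc 1 (T.card + 1)).card := by
      apply Finset.card_image_of_injOn
      intro s hs s' hs' hss
      have hs1 := Finset.mem_Icc.1 (Finset.mem_coe.1 hs)
      have hs2 := Finset.mem_Icc.1 (Finset.mem_coe.1 hs')
      simp only [sub_left_inj] at hss
      have h2 := mul_left_cancel₀ hg0 hss
      rcases sq_eq_sq_iff_eq_or_eq_neg.1 h2 with h3 | h3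
      · have h4 := (ZMod.natCast_eq_natCast_iff' _ _ _).1 h3
        rwa [Nat.mod_eq_of_lt (by omega), Nat.mod_eq_of_lt (by omega)] at h4
      · exfalso
        have h4 : ((s + s' : ℕ) : ZMod q) = 0 := by
          push_cast
          rw [h3]
          ring
        rw [ZMod.natCast_eq_zero_iff] at h4
        have := Nat.le_of_dvd (by omega) h4
        omega
    rw [h1]
    simp
  have hB : B.card ≤ T.card := Finset.card_image_le
  obtain ⟨z, hz, hz'⟩ := Finset.exists_mem_notMem_of_card_lt_card (s := B) (t := A) (by omega)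
  obtain ⟨v, hv, hvz⟩ := Finset.mem_image.1 hz
  have hv1 := Finset.mem_Icc.1 hv
  have hv0 : (v : ZMod q) ≠ 0 := by
    rw [Ne, ZMod.natCast_eq_zero_iff]
    intro hd
    have := Nat.le_of_dvd (by omega) hd
    omega
  refine ⟨z.val, ?_, ?_⟩
  · intro s' hs' hd
    apply hz'
    refine Finset.mem_image.2 ⟨s', hs', ?_⟩
    have h1 : ((z.val + s' : ℕ) : ZMod q) = 0 := (ZMod.natCast_eq_zero_iff _ _).2 hd
    push_cast at h1
    rw [ZMod.natCast_zmod_val] at h1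
    rw [eq_neg_of_add_eq_zero_left h1]
  · rw [← jacobiSym.legendreSym.to_jacobiSym]
    unfold legendreSym
    have h1 : (((z.val + s : ℕ) : ℤ) : ZMod q) = g * (v : ZMod q) ^ 2 := by
      push_cast
      rw [ZMod.natCast_zmod_val, ← hvz]
      ring
    rw [h1, map_mul, quadraticChar_sq_one' hv0, mul_one, hgκ]

/-- evaluation of a symbol -/
theorem eval {q R r N : ℕ} (hq : Odd q) (hN : Odd N) (hr : r.Coprime N) :
    jacobiSym ((q * R * r ^ 2 : ℕ) : ℤ) N = (-1) ^ (q / 2 * (N / 2)) * jacobiSym (N : ℤ) q * jacobiSym (R : ℤ) N := by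
  push_cast
  rw [jacobiSym.mul_left, jacobiSym.mul_left, jacobiSym.sq_one' (by
    rw [Int.gcd_natCast_natCast]
    exact hr), mul_one, jacobiSym.quadratic_reciprocity hq hN]

theorem sign_congr {q N N' : ℕ} (hN : Odd N) (hN' : Odd N') (h : N ≡ N' [MOD 4]) :
    (-1 : ℤ) ^ (q / 2 * (N / 2)) = (-1) ^ (q / 2 * (N' / 2)) := by
  apply neg_one_pow_congr
  rw [Nat.even_mul, Nat.even_mul]
  have h1 : Even (N / 2) ↔ Even (N' / 2) := by
    obtain ⟨k, rfl⟩ := hN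
    obtain ⟨k', rfl⟩ := hN'
    unfold Nat.ModEq at h
    rw [Nat.even_iff, Nat.even_iff]
    omega
  rw [h1]

theorem sym_congr {R N N' : ℕ} (hN : Odd N) (hN' : Odd N') (h : N ≡ N' [MOD 4 * R]) :
    jacobiSym (R : ℤ) N = jacobiSym (R : ℤ) N' := by
  rw [jacobiSym.mod_right _ hN, jacobiSym.mod_right _ hN', Int.natAbs_natCast]
  rw [h]

theorem pm_mul {x y : ℤ} (hx : x = 1 ∨ x = -1) (hy : y = 1 ∨ y = -1) : x * y = 1 ∨ x * y = -1 := by
  rcases hx with rfl | rfl <;> rcases hy with rfl | rfl <;> simp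

theorem pm_sq {x : ℤ} (hx : x = 1 ∨ x = -1) : x * x = 1 := by
  rcases hx with rfl | rfl <;> simp

/-- a set of positions is generic -/
structure Gen (Λ z : ℕ) (T : Finset ℕ) : Prop where
  cong : ∀ s ∈ T, ∀ s' ∈ T, s ≡ s' [MOD Λ]
  priv : ∀ s ∈ T, ∀ s' ∈ T, s < s' → ∃ q R r : ℕ, q.Prime ∧ z < q ∧ s' - s = q * R * r ^ 2 ∧ ¬ q ∣ R
  uniq : ∀ q : ℕ, q.Prime → z < q → ∀ s₁ ∈ T, ∀ s₁' ∈ T, s₁ < s₁' → ∀ s₂ ∈ T, ∀ s₂' ∈ T, s₂ < s₂' →
    q ∣ s₁' - s₁ → q ∣ s₂' - s₂ → s₁ = s₂ ∧ s₁' = s₂'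

theorem Gen.mono {Λ z : ℕ} {T T' : Finset ℕ} (h : Gen Λ z T) (hT : T' ⊆ T) : Gen Λ z T' :=
  ⟨fun s hs s' hs' => h.cong s (hT hs) s' (hT hs'), fun s hs s' hs' => h.priv s (hT hs) s' (hT hs'),
    fun q hq hz s₁ h1 s₁' h2 h3 s₂ h4 s₂' h5 h6 =>
      h.uniq q hq hz s₁ (hT h1) s₁' (hT h2) h3 s₂ (hT h4) s₂' (hT h5) h6⟩

/-- **the residue class** -/
theorem symClass {Λ z : ℕ} (h4 : 4 ∣ Λ) (hΛ0 : 0 < Λ) (hΛz : Λ ≤ z) (T : Finset ℕ) (hT : Gen Λ z T)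
    (hsmall : ∀ p : ℕ, p.Prime → p ≤ 2 * T.card + 2 → p ∣ Λ) (b : ℕ) (hb : b.Coprime Λ)
    (w : ℕ → ℕ → ℤ) (hw : ∀ s s', w s s' = 1 ∨ w s s' = -1) :
    ∃ a h₁ : ℕ, 0 < a ∧ Λ ∣ a ∧ (∀ s ∈ T, (h₁ + s).Coprime a) ∧ (∀ s ∈ T, h₁ + s ≡ b [MOD Λ]) ∧
      ∀ n, n ≡ h₁ [MOD a] → ∀ s ∈ T, ∀ s' ∈ T, s < s' → s' < n → (n + s).Prime →
        jacobiSym ((n + s' : ℕ) : ℤ) (n + s) = w s s' := by
  classical
  let P : Finset (ℕ × ℕ) := (T ×ˢ T).filter (fun π => π.1 < π.2)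
  have hP : ∀ π ∈ P, π.1 ∈ T ∧ π.2 ∈ T ∧ π.1 < π.2 := by
    intro π hπ
    obtain ⟨h1, h2⟩ := Finset.mem_filter.1 hπ
    exact ⟨(Finset.mem_product.1 h1).1, (Finset.mem_product.1 h1).2, h2⟩
  have hex : ∀ π : ℕ × ℕ, ∃ q R r : ℕ, π ∈ P → q.Prime ∧ z < q ∧ π.2 - π.1 = q * R * r ^ 2 ∧ ¬ q ∣ R := by
    intro π
    by_cases hπ : π ∈ P
    · obtain ⟨h1, h2, h3⟩ := hP π hπ
      obtain ⟨q, R, r, h⟩ := hT.priv π.1 h1 π.2 h2 h3
      exact ⟨q, R, r, fun _ => h⟩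
    · exact ⟨0, 0, 0, fun h => absurd h hπ⟩
  choose q R r hq using hex
  have hD0 : ∀ π ∈ P, 0 < π.2 - π.1 := fun π hπ => by have := (hP π hπ).2.2; omega
  have hR0 : ∀ π ∈ P, 0 < R π := by
    intro π hπ
    rcases Nat.eq_zero_or_pos (R π) with h | h
    · have h1 := (hq π hπ).2.2.1
      rw [h, mul_zero, zero_mul] at h1
      have := hD0 π hπ
      omega
    · exact h
  have hr0 : ∀ π ∈ P, 0 < r π := by
    intro π hπ
    rcases Nat.eq_zero_or_pos (r π) with h | h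
    · have h1 := (hq π hπ).2.2.1
      rw [h, zero_pow two_ne_zero, mul_zero] at h1
      have := hD0 π hπ
      omega
    · exact h
  have hqd : ∀ π ∈ P, q π ∣ π.2 - π.1 := fun π hπ => by
    rw [(hq π hπ).2.2.1, mul_assoc]
    exact Nat.dvd_mul_right _ _
  have hRd : ∀ π ∈ P, R π ∣ π.2 - π.1 := fun π hπ => by
    rw [(hq π hπ).2.2.1]
    exact Dvd.dvd.mul_right (Nat.dvd_mul_left _ _) _
  have huniq : ∀ π ∈ P, ∀ π' ∈ P, q π ∣ π'.2 - π'.1 → π = π' := by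
    intro π hπ π' hπ' hd
    obtain ⟨a1, a2, a3⟩ := hP π hπ
    obtain ⟨b1, b2, b3⟩ := hP π' hπ'
    have h := hT.uniq (q π) (hq π hπ).1 (hq π hπ).2.1 π.1 a1 π.2 a2 a3 π'.1 b1 π'.2 b2 b3 (hqd π hπ) hd
    exact Prod.ext h.1 h.2
  have hqΛ : ∀ π ∈ P, (q π).Coprime Λ := by
    intro π hπ
    rw [Nat.Prime.coprime_iff_not_dvd (hq π hπ).1]
    intro hd
    have h1 := Nat.le_of_dvd hΛ0 hd
    have h2 := (hq π hπ).2.1
    omega
  have hqR : ∀ π ∈ P, ∀ π' ∈ P, (q π).Coprime (R π') := by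
    intro π hπ π' hπ'
    rw [Nat.Prime.coprime_iff_not_dvd (hq π hπ).1]
    intro hd
    have h1 := huniq π hπ π' hπ' (hd.trans (hRd π' hπ'))
    rw [← h1] at hd
    exact (hq π hπ).2.2.2 hd
  have h2Λ : 2 ∣ Λ := (by norm_num : (2 : ℕ) ∣ 4).trans h4
  have hqodd : ∀ π ∈ P, Odd (q π) := by
    intro π hπ
    refine (hq π hπ).1.odd_of_ne_two ?_
    intro h
    have h1 := hqΛ π hπ
    rw [h] at h1
    have h2 := Nat.dvd_gcd (dvd_refl 2) h2Λ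
    rw [h1] at h2
    omega
  have hbig : ∀ p : ℕ, p.Prime → ¬ p ∣ Λ → 2 * T.card + 2 < p := by
    intro p hp hpΛ
    by_contra hcon
    push Not at hcon
    exact hpΛ (hsmall p hp hcon)
  -- first step
  let S₀ : Finset ℕ := (∏ π ∈ P, R π).primeFactors.filter (fun p => ¬ p ∣ Λ)
  have hS₀ : ∀ p ∈ S₀, p.Prime ∧ ¬ p ∣ Λ := fun p hp =>
    ⟨Nat.prime_of_mem_primeFactors (Finset.mem_filter.1 hp).1, (Finset.mem_filter.1 hp).2⟩
  have hcl : ∀ p : ℕ, ∃ x : ℕ, p ∈ S₀ → ∀ s ∈ T, ¬ p ∣ x + s := by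
    intro p
    by_cases hp : p ∈ S₀
    · obtain ⟨h1, h2⟩ := hS₀ p hp
      obtain ⟨x, hx, -⟩ := class_exists' h1 (fun h => h2 (h ▸ h2Λ)) T (hbig p h1 h2) 0 1 (Or.inl rfl)
      exact ⟨x, fun _ => hx⟩
    · exact ⟨0, fun h => absurd h hp⟩
  choose cl hcl using hcl
  obtain ⟨x₀, hx₀⟩ := Nat.chineseRemainderOfFinset cl (fun p => p) S₀ (fun i hi => (hS₀ i hi).1.ne_zero) (by
    intro i hi j hj hij
    exact (Nat.coprime_primes (hS₀ i hi).1 (hS₀ j hj).1).2 hij)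
  have hcopS : (∏ p ∈ S₀, p).Coprime Λ := Nat.Coprime.prod_left fun p hp =>
    (Nat.Prime.coprime_iff_not_dvd (hS₀ p hp).1).2 (hS₀ p hp).2
  obtain ⟨s₀, hs₀⟩ : ∃ s₀ : ℕ, ∀ s ∈ T, s ≡ s₀ [MOD Λ] := by
    rcases T.eq_empty_or_nonempty with h | ⟨s₀, h⟩
    · exact ⟨0, fun s hs => by rw [h] at hs; exact absurd hs (Finset.notMem_empty _)⟩
    · exact ⟨s₀, fun s hs => hT.cong s hs s₀ h⟩
  obtain ⟨x₁, hx1, hx2⟩ := Nat.chineseRemainder hcopS x₀ (b + (Λ - 1) * s₀)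
  have hx₁b : ∀ s ∈ T, x₁ + s ≡ b [MOD Λ] := by
    intro s hs
    have h1 : x₁ + s ≡ b + (Λ - 1) * s₀ + s₀ [MOD Λ] := hx2.add (hs₀ s hs)
    have h2 : b + (Λ - 1) * s₀ + s₀ = b + Λ * s₀ := by
      obtain ⟨l, rfl⟩ : ∃ l, Λ = l + 1 := ⟨Λ - 1, by omega⟩
      rw [Nat.add_sub_cancel]
      ring
    rw [h2] at h1
    have h3 : b + Λ * s₀ ≡ b + 0 [MOD Λ] := (Nat.modEq_zero_iff_dvd.2 (Nat.dvd_mul_right _ _)).add_left _
    exact h1.trans h3
  have hW0 : 0 < Λ * ∏ π ∈ P, R π := Nat.mul_pos hΛ0 (Finset.prod_pos hR0)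
  have hx₁c : ∀ s ∈ T, (x₁ + s).Coprime (Λ * ∏ π ∈ P, R π) := by
    intro s hs
    rw [Nat.coprime_comm]
    apply Nat.coprime_of_dvd
    intro p hp hpW hps
    by_cases hpΛ : p ∣ Λ
    · have h1 : x₁ + s ≡ b [MOD p] := (hx₁b s hs).of_dvd hpΛ
      have h2 : p ∣ b := Nat.modEq_zero_iff_dvd.1 (h1.symm.trans (Nat.modEq_zero_iff_dvd.2 hps))
      have h3 := Nat.dvd_gcd h2 hpΛ
      rw [hb] at h3
      exact hp.one_lt.ne' (Nat.eq_one_of_dvd_one h3)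
    · have h1 : p ∣ ∏ π ∈ P, R π := ((Nat.Prime.dvd_mul hp).1 hpW).resolve_left hpΛ
      have h2 : p ∈ S₀ := Finset.mem_filter.2 ⟨Nat.mem_primeFactors.2 ⟨hp, h1, (Finset.prod_pos hR0).ne'⟩, hpΛ⟩
      have h3 : x₁ ≡ cl p [MOD p] := (hx1.of_dvd (Finset.dvd_prod_of_mem _ h2)).trans (hx₀ p h2)
      apply hcl p h2 s hs
      exact Nat.modEq_zero_iff_dvd.1 ((h3.add_right s).symm.trans (Nat.modEq_zero_iff_dvd.2 hps))
  have hodd : ∀ N : ℕ, N.Coprime Λ → Odd N := by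
    intro N hN
    rw [← Nat.not_even_iff_odd, even_iff_two_dvd]
    intro h
    have h2 := Nat.dvd_gcd h h2Λ
    rw [hN] at h2
    omega
  have hx₁o : ∀ s ∈ T, Odd (x₁ + s) := fun s hs =>
    hodd _ (Nat.Coprime.coprime_dvd_right (Nat.dvd_mul_right _ _) (hx₁c s hs))
  -- second step
  obtain ⟨A, hA⟩ : ∃ A : ℕ × ℕ → ℤ, A = fun π => jacobiSym (R π : ℤ) (x₁ + π.1) := ⟨_, rfl⟩
  have hApm : ∀ π ∈ P, A π = 1 ∨ A π = -1 := by
    intro π hπ
    rw [hA]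
    apply jacobiSym.eq_one_or_neg_one
    rw [Int.gcd_natCast_natCast]
    exact (Nat.Coprime.coprime_dvd_right
      ((Finset.dvd_prod_of_mem _ hπ).trans (Nat.dvd_mul_left _ _)) (hx₁c π.1 (hP π hπ).1)).symm
  obtain ⟨κ, hκ⟩ : ∃ κ : ℕ × ℕ → ℤ, κ = fun π => w π.1 π.2 * ((-1) ^ (q π / 2 * ((x₁ + π.1) / 2)) * A π) :=
    ⟨_, rfl⟩
  have hκpm : ∀ π ∈ P, κ π = 1 ∨ κ π = -1 := by
    intro π hπ
    rw [hκ]
    exact pm_mul (hw _ _) (pm_mul (neg_one_pow_eq_or ℤ _) (hApm π hπ))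
  have hcl2 : ∀ π : ℕ × ℕ, ∃ x : ℕ, π ∈ P → (∀ s ∈ T, ¬ q π ∣ x + s) ∧
      jacobiSym ((x + π.1 : ℕ) : ℤ) (q π) = κ π := by
    intro π
    by_cases hπ : π ∈ P
    · have h1 := (hq π hπ).1
      obtain ⟨x, hx⟩ := class_exists' h1 (by
        intro h
        have := hqodd π hπ
        rw [h] at this
        exact absurd this (by decide)) T (hbig _ h1 ((Nat.Prime.coprime_iff_not_dvd h1).1 (hqΛ π hπ)))
          π.1 (κ π) (hκpm π hπ)
      exact ⟨x, fun _ => hx⟩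
    · exact ⟨0, fun h => absurd h hπ⟩
  choose cl2 hcl2 using hcl2
  obtain ⟨x₂, hx₂⟩ := Nat.chineseRemainderOfFinset cl2 q P (fun i hi => (hq i hi).1.ne_zero) (by
    intro i hi j hj hij
    refine (Nat.coprime_primes (hq i hi).1 (hq j hj).1).2 fun h => hij ?_
    apply huniq i hi j hj
    rw [h]
    exact hqd j hj)
  have hcopW : (Λ * ∏ π ∈ P, R π).Coprime (∏ π ∈ P, q π) := by
    refine Nat.Coprime.prod_right fun π hπ => ?_
    exact (Nat.Coprime.mul_right (hqΛ π hπ) (Nat.Coprime.prod_right fun π' hπ' => hqR π hπ π' hπ')).symm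
  obtain ⟨h₁, hh1, hh2⟩ := Nat.chineseRemainder hcopW x₁ x₂
  have hh1c : ∀ s ∈ T, (h₁ + s).Coprime ((Λ * ∏ π ∈ P, R π) * ∏ π ∈ P, q π) := by
    intro s hs
    refine Nat.Coprime.mul_right ?_ (Nat.Coprime.prod_right fun π hπ => ?_)
    · rw [Nat.Coprime, (hh1.add_right s).gcd_eq]
      exact hx₁c s hs
    · rw [Nat.coprime_comm, Nat.Prime.coprime_iff_not_dvd (hq π hπ).1]
      intro hd
      have h1 : h₁ ≡ cl2 π [MOD q π] := (hh2.of_dvd (Finset.dvd_prod_of_mem _ hπ)).trans (hx₂ π hπ)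
      apply (hcl2 π hπ).1 s hs
      exact Nat.modEq_zero_iff_dvd.1 ((h1.add_right s).symm.trans (Nat.modEq_zero_iff_dvd.2 hd))
  refine ⟨(Λ * ∏ π ∈ P, R π) * ∏ π ∈ P, q π, h₁,
    Nat.mul_pos hW0 (Finset.prod_pos fun π hπ => (hq π hπ).1.pos), ?_, hh1c, fun s hs => ?_, ?_⟩
  · exact Dvd.dvd.mul_right (Nat.dvd_mul_right _ _) _
  · exact ((hh1.of_dvd (Nat.dvd_mul_right _ _)).add_right s).trans (hx₁b s hs)
  · intro n hn s hs s' hs' hss hsn hpr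
    have hπ : (s, s') ∈ P := Finset.mem_filter.2 ⟨Finset.mem_product.2 ⟨hs, hs'⟩, hss⟩
    have hnc : (n + s).Coprime Λ := by
      have h1 : (h₁ + s).Coprime Λ := Nat.Coprime.coprime_dvd_right
        (Dvd.dvd.mul_right (Nat.dvd_mul_right _ _) _) (hh1c s hs)
      have h2 : n ≡ h₁ [MOD Λ] := hn.of_dvd (Dvd.dvd.mul_right (Nat.dvd_mul_right _ _) _)
      rw [Nat.Coprime, (h2.add_right s).gcd_eq]
      exact h1
    have hno : Odd (n + s) := hodd _ hnc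
    have hrc : (r (s, s')).Coprime (n + s) := by
      rw [Nat.coprime_comm, Nat.Prime.coprime_iff_not_dvd hpr]
      intro hd
      have h1 := Nat.le_of_dvd (hr0 _ hπ) hd
      have h2 := (hq _ hπ).2.2.1
      have h3 : r (s, s') ≤ q (s, s') * R (s, s') * r (s, s') ^ 2 := by
        have h4 : r (s, s') * 1 ≤ r (s, s') ^ 2 := by
          rw [sq]
          exact Nat.mul_le_mul_left _ (hr0 _ hπ)
        have h5 : 1 * r (s, s') ^ 2 ≤ q (s, s') * R (s, s') * r (s, s') ^ 2 :=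
          Nat.mul_le_mul_right _ (Nat.mul_pos (hq _ hπ).1.pos (hR0 _ hπ))
        omega
      simp only at h2
      omega
    have e1 : jacobiSym ((n + s' : ℕ) : ℤ) (n + s) =
        jacobiSym ((q (s, s') * R (s, s') * r (s, s') ^ 2 : ℕ) : ℤ) (n + s) := by
      apply jacobiSym.mod_left'
      rw [← (hq _ hπ).2.2.1]
      have h1 : ((n + s' : ℕ) : ℤ) = ((n + s : ℕ) : ℤ) + ((s' - s : ℕ) : ℤ) := by
        rw [← Nat.cast_add]
        congr 1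
        omega
      rw [h1, Int.add_emod_left]
    have hnx : n ≡ x₁ [MOD Λ * ∏ π ∈ P, R π] := (hn.of_dvd (Nat.dvd_mul_right _ _)).trans hh1
    have e2 : jacobiSym (R (s, s') : ℤ) (n + s) = A (s, s') := by
      rw [hA]
      refine sym_congr hno (hx₁o s hs) ((hnx.add_right s).of_dvd ?_)
      exact Nat.mul_dvd_mul h4 (Finset.dvd_prod_of_mem _ hπ)
    have e3 : (-1 : ℤ) ^ (q (s, s') / 2 * ((n + s) / 2)) = (-1) ^ (q (s, s') / 2 * ((x₁ + s) / 2)) :=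
      sign_congr hno (hx₁o s hs) ((hnx.add_right s).of_dvd (Dvd.dvd.mul_right h4 _))
    have e4 : jacobiSym ((n + s : ℕ) : ℤ) (q (s, s')) = κ (s, s') := by
      rw [← (hcl2 _ hπ).2]
      apply jacobiSym.mod_left'
      have h1 : n ≡ cl2 (s, s') [MOD q (s, s')] :=
        ((hn.of_dvd (Dvd.dvd.mul_left (Finset.dvd_prod_of_mem _ hπ) _)).trans
          (hh2.of_dvd (Finset.dvd_prod_of_mem _ hπ))).trans (hx₂ _ hπ)
      have h2 := h1.add_right s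
      exact_mod_cast h2
    rw [e1, eval (hqodd _ hπ) hno hrc, e2, e3, e4, hκ]
    simp only
    have h5 := pm_sq (neg_one_pow_eq_or ℤ (q (s, s') / 2 * ((x₁ + s) / 2)))
    have h6 := pm_sq (hApm _ hπ)
    calc (-1) ^ (q (s, s') / 2 * ((x₁ + s) / 2)) * (w s s' * ((-1) ^ (q (s, s') / 2 * ((x₁ + s) / 2)) *
        A (s, s'))) * A (s, s') = w s s' * ((-1) ^ (q (s, s') / 2 * ((x₁ + s) / 2)) *
          (-1) ^ (q (s, s') / 2 * ((x₁ + s) / 2))) * (A (s, s') * A (s, s')) := by ring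
      _ = w s s' := by rw [h5, h6, mul_one, mul_one]

end Pool.Agent.U974.PP
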