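import Mathlib
import Pool.Agent.U974.PP.Mt
import Pool.Agent.U974.PP.Sym
import Pool.Agent.U974.LG.Embed
import Pool.Agent.U974.TW.Eng
import Pool.Agent.H152.HR.Ramsey

/-! # Large generic sets contain good tuples -/

set_option autoImplicit false

namespace Pool.Agent.U974.PP

open Finset
open Pool.Agent.U974.LG
open Pool.Agent.U974.TW (cls cls_spec cls_eq cls_mono)

/-- the tuple is good -/
def GoodT (L B : ℕ) {m : ℕ} (h : Fin m → ℕ) : Prop :=
  ∀ ε : Fin m → Fin m → ℤ, (∀ i j, ε i j = 1 ∨ ε i j = -1) → ∀ b : ℕ, b.Coprime L → ∀ Y : ℕ,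
    {n : ℕ | (∀ i, (n + h i).Prime ∧ n + h i ≡ b [MOD L]) ∧
      (∀ i j, i < j → jacobiSym ((n + h j : ℕ) : ℤ) (n + h i) = ε i j) ∧
      {p : ℕ | p.Prime ∧ |(p : ℤ) - n| ≤ Y}.ncard ≤ B}.Infinite

theorem exists_good (m L : ℕ) (hL : 0 < L) : ∃ K Λ B : ℕ, 0 < Λ ∧ ∀ z, Λ ≤ z → ∀ T : Finset ℕ, K ≤ T.card →
    Gen Λ z T → ∃ h : Fin m → ℕ, StrictMono h ∧ (∀ i, h i ∈ T) ∧ GoodT L B h := by
  classical
  obtain ⟨off, hoff, hoff0, Hh⟩ := hitsets
  obtain ⟨Q₀, hQ₀⟩ := embed_order m (1 / 800) (by norm_num)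
  obtain ⟨Q, hQge, hQ⟩ := Nat.exists_infinite_primes (Q₀ + 4)
  have : Fact Q.Prime := ⟨hQ⟩
  obtain ⟨N, hN⟩ : ∃ N, N = Q - 1 := ⟨_, rfl⟩
  have hN0 : 0 < N := by omega
  obtain ⟨K', hK'⟩ : ∃ K', K' = off N := ⟨_, rfl⟩
  obtain ⟨K, hK⟩ := H152HR.ramsey ((Fin m → Fin m → Bool) × Fin L) m K'
  obtain ⟨Λ, hΛ⟩ : ∃ Λ : ℕ, Λ = 4 * L * ∏ p ∈ (Finset.range (2 * K' + 3)).filter Nat.Prime, p := ⟨_, rfl⟩
  have hprod0 : 0 < ∏ p ∈ (Finset.range (2 * K' + 3)).filter Nat.Prime, p :=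
    Finset.prod_pos (fun p hp => (Finset.mem_filter.1 hp).2.pos)
  have hΛ0 : 0 < Λ := by rw [hΛ]; positivity
  have h4Λ : 4 ∣ Λ := by rw [hΛ]; exact Dvd.dvd.mul_right (Nat.dvd_mul_right _ _) _
  have hLΛ : L ∣ Λ := by rw [hΛ]; exact Dvd.dvd.mul_right (Nat.dvd_mul_left _ _) _
  have hsm : ∀ p : ℕ, p.Prime → p ≤ 2 * K' + 2 → p ∣ Λ := by
    intro p hp hpK
    rw [hΛ]
    exact Dvd.dvd.mul_left (Finset.dvd_prod_of_mem _ (Finset.mem_filter.2 ⟨Finset.mem_range.2 (by omega), hp⟩)) _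
  refine ⟨K, Λ, K', hΛ0, fun z hz T hTc hT => ?_⟩
  by_contra hcon
  push Not at hcon
  -- the bad data
  have hbad : ∀ J : Finset ℕ, ∃ (ε : Fin m → Fin m → ℤ) (b Y : ℕ), ∀ hJ : J.card = m, J ⊆ T →
      (∀ i j, ε i j = 1 ∨ ε i j = -1) ∧ b.Coprime L ∧
      ¬ {n : ℕ | (∀ i, (n + J.orderEmbOfFin hJ i).Prime ∧ n + J.orderEmbOfFin hJ i ≡ b [MOD L]) ∧
        (∀ i j, i < j → jacobiSym ((n + J.orderEmbOfFin hJ j : ℕ) : ℤ) (n + J.orderEmbOfFin hJ i) = ε i j) ∧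
        {p : ℕ | p.Prime ∧ |(p : ℤ) - n| ≤ Y}.ncard ≤ K'}.Infinite := by
    intro J
    by_cases hJ : J.card = m ∧ J ⊆ T
    · obtain ⟨hJ1, hJ2⟩ := hJ
      have h1 := hcon (fun i => J.orderEmbOfFin hJ1 i) (J.orderEmbOfFin hJ1).strictMono
        (fun i => hJ2 (Finset.orderEmbOfFin_mem J hJ1 i))
      unfold GoodT at h1
      push Not at h1
      obtain ⟨ε, hε, b, hb, Y, hY⟩ := h1
      exact ⟨ε, b, Y, fun _ _ => ⟨hε, hb, fun h => h (Set.not_infinite.1 (by simpa using hY))⟩⟩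
    · exact ⟨fun _ _ => 1, 0, 0, fun h1 h2 => absurd ⟨h1, h2⟩ hJ⟩
  choose εJ bJ YJ hJbad using hbad
  obtain ⟨S, hST, hSc, ⟨e, β⟩, hcol⟩ := hK (fun J => (fun i j => decide (εJ J i j = 1),
    (⟨bJ J % L, Nat.mod_lt _ hL⟩ : Fin L))) T hTc
  -- the enumeration
  obtain ⟨t, ht⟩ : ∃ t : ℕ → ℕ, t = fun i => if h : i < K' then S.orderEmbOfFin hSc ⟨i, h⟩ else 0 := ⟨_, rfl⟩
  have htlt : ∀ i (h : i < K'), t i = S.orderEmbOfFin hSc ⟨i, h⟩ := fun i h => by rw [ht]; simp [h]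
  have htmono : ∀ i j, i < j → j < K' → t i < t j := by
    intro i j hij hj
    rw [htlt i (hij.trans hj), htlt j hj]
    exact (S.orderEmbOfFin hSc).strictMono hij
  have htS : ∀ i, i < K' → t i ∈ S := fun i hi => by
    rw [htlt i hi]
    exact Finset.orderEmbOfFin_mem S hSc _
  have hinj : Set.InjOn t {i | i < K'} := by
    intro i hi j hj hij
    rcases lt_trichotomy i j with h | h | h
    · exact absurd hij (htmono i j h hj).ne
    · exact h
    · exact absurd hij.symm (htmono j i h hi).ne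
  obtain ⟨idx, hidx⟩ : ∃ idx : ℕ → ℕ, ∀ i, i < K' → idx (t i) = i :=
    ⟨Function.invFunOn t {i | i < K'}, fun i hi => hinj.leftInvOn_invFunOn hi⟩
  obtain ⟨wp, hwp⟩ : ∃ wp : ℕ → ℕ → ℤ, wp = fun x y => if x < y ∧ y < N then
    chi Q (((y + 1 : ℕ) : ZMod Q) - ((x + 1 : ℕ) : ZMod Q)) else 1 := ⟨_, rfl⟩
  have hwpm : ∀ x y, wp x y = 1 ∨ wp x y = -1 := by
    intro x y
    rw [hwp]
    simp only
    split_ifs with h
    · have hne : ((y + 1 : ℕ) : ZMod Q) - ((x + 1 : ℕ) : ZMod Q) ≠ 0 := by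
        intro h0
        have h1 := (ZMod.natCast_eq_natCast_iff' _ _ _).1 (sub_eq_zero.1 h0)
        rw [Nat.mod_eq_of_lt (by omega), Nat.mod_eq_of_lt (by omega)] at h1
        omega
      exact quadraticChar_dichotomy hne
    · exact Or.inl rfl
  -- the class
  obtain ⟨b, hb, hbβ⟩ : ∃ b : ℕ, b.Coprime L ∧ ((β : ℕ).Coprime L → b = β) := by
    by_cases h : (β : ℕ).Coprime L
    · exact ⟨β, h, fun _ => rfl⟩
    · exact ⟨1, Nat.coprime_one_left L, fun h' => absurd h' h⟩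
  obtain ⟨b', hb'1, hb'2, hb'3⟩ := Nat.forall_exists_prime_gt_and_modEq Λ hL.ne' hb
  have hb'c : b'.Coprime Λ := by
    rw [Nat.Prime.coprime_iff_not_dvd hb'2]
    intro hd
    have := Nat.le_of_dvd hΛ0 hd
    omega
  obtain ⟨a, h₁, ha0, hΛa, hac, hab, hasym⟩ := symClass (w := fun s s' => wp (cls off (idx s)) (cls off (idx s')))
    h4Λ hΛ0 hz S (hT.mono hST) (by rw [hSc]; exact hsm) b' hb'c (fun s s' => hwpm _ _)
  obtain ⟨I, hI1, hI2, hI3⟩ := Hh N t a h₁ hN0 ha0 (by rw [← hK']; exact htmono)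
    (by rw [← hK']; exact fun p hp hpK => (hsm p hp hpK).trans hΛa)
    (by rw [← hK']; exact fun i hi => hac _ (htS i hi))
  rw [← hK'] at hI1
  let E : Finset (Fin (Q - 1)) := Finset.univ.filter (fun e => ∃ i ∈ I, off (e : ℕ) ≤ i ∧ i < off ((e : ℕ) + 1))
  have hEc : (1 / 800 : ℝ) * ((Q - 1 : ℕ) : ℝ) ≤ E.card := by
    have h1 : ((range N).filter (fun s => ∃ i ∈ I, off s ≤ i ∧ i < off (s + 1))).card ≤ E.card := by
      have h2 : ((range N).filter (fun s => ∃ i ∈ I, off s ≤ i ∧ i < off (s + 1))) ⊆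
          E.image (fun e : Fin (Q - 1) => (e : ℕ)) := by
        intro t ht
        obtain ⟨h3, h4⟩ := Finset.mem_filter.1 ht
        have h5 := Finset.mem_range.1 h3
        exact Finset.mem_image.2 ⟨⟨t, by omega⟩, Finset.mem_filter.2 ⟨Finset.mem_univ _, h4⟩, rfl⟩
      exact (Finset.card_le_card h2).trans Finset.card_image_le
    have h2 : N ≤ 800 * E.card := hI2.trans (Nat.mul_le_mul_left _ h1)
    have h3 : (N : ℝ) ≤ 800 * E.card := by exact_mod_cast h2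
    have h4 : ((Q - 1 : ℕ) : ℝ) = (N : ℝ) := by rw [hN]
    linarith
  obtain ⟨em, hem, hemE, hemε⟩ := hQ₀ Q (by omega) E hEc (fun i j => if e i j then 1 else -1) (by
    intro i j
    split_ifs
    · exact Or.inl rfl
    · exact Or.inr rfl)
  have h1 : ∀ i, ∃ k, k ∈ I ∧ off (em i) ≤ k ∧ k < off (em i + 1) := by
    intro i
    obtain ⟨k, hkI, hk⟩ := (Finset.mem_filter.1 (hemE i)).2
    exact ⟨k, hkI, hk⟩
  choose k hkI hk1 hk2 using h1
  have hkK : ∀ i, k i < K' := fun i => hI1 _ (hkI i)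
  have hcls : ∀ i, cls off (k i) = em i := fun i => cls_eq hoff hoff0 (hk1 i) (hk2 i)
  have hklt : ∀ i i', i < i' → k i < k i' := by
    intro i i' hii
    by_contra hcon
    push Not at hcon
    have h2 := cls_mono hoff hoff0 hcon
    rw [hcls, hcls] at h2
    exact absurd h2 (not_le.2 (Fin.lt_def.1 (hem hii)))
  have hh0 : StrictMono (fun i => t (k i)) := fun i i' hii => htmono _ _ (hklt i i' hii) (hkK i')
  obtain ⟨J, hJ⟩ : ∃ J : Finset ℕ, J = Finset.univ.image (fun i => t (k i)) := ⟨_, rfl⟩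
  have hJc : J.card = m := by
    rw [hJ, Finset.card_image_of_injective _ hh0.injective, Finset.card_univ, Fintype.card_fin]
  have hJS : J ⊆ S := by
    intro s hs
    rw [hJ] at hs
    obtain ⟨i, _, rfl⟩ := Finset.mem_image.1 hs
    exact htS _ (hkK i)
  have hJe : ∀ i, J.orderEmbOfFin hJc i = t (k i) := by
    intro i
    have h1 := Finset.orderEmbOfFin_unique hJc (f := fun i => t (k i)) (by
      intro x
      rw [hJ]
      exact Finset.mem_image_of_mem _ (Finset.mem_univ x)) hh0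
    exact (congrFun h1 i).symm
  obtain ⟨g1, g2, g3⟩ := hJbad J hJc (hJS.trans hST)
  have hcJ := hcol J hJS hJc
  simp only [Prod.mk.injEq] at hcJ
  obtain ⟨hce, hcb⟩ := hcJ
  have hεe : ∀ i j, εJ J i j = if e i j then 1 else -1 := by
    intro i j
    have h1 := congrFun (congrFun hce i) j
    rw [← h1]
    rcases g1 i j with h2 | h2
    · rw [h2]
      simp
    · rw [h2]
      simp
  have hbJ : bJ J ≡ b [MOD L] := by
    have h1 : (β : ℕ) = bJ J % L := by rw [← hcb]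
    have h2 : (β : ℕ) ≡ bJ J [MOD L] := by
      rw [h1]
      exact Nat.mod_modEq _ _
    have h3 : (β : ℕ).Coprime L := by
      rw [Nat.Coprime, h2.gcd_eq]
      exact g2
    rw [hbβ h3]
    exact h2.symm
  apply g3
  obtain ⟨Y, hY⟩ : ∃ Y, Y = max (YJ J) (S.sup id) := ⟨_, rfl⟩
  have hYS : ∀ s ∈ S, s ≤ Y := fun s hs => by
    rw [hY]
    exact (Finset.le_sup (f := id) hs).trans (le_max_right _ _)
  refine (hI3 Y).mono ?_
  rintro n ⟨m1, m2, m3⟩
  have hpr : ∀ i, (n + t (k i)).Prime := by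
    intro i
    have h1 := (m3 (t (k i)) (by
      rw [abs_of_nonneg (Int.natCast_nonneg _)]
      exact_mod_cast hYS _ (htS _ (hkK i)))).2 ⟨k i, hkI i, rfl⟩
    have h2 : ((n : ℤ) + (t (k i) : ℤ)).toNat = n + t (k i) := by
      rw [← Nat.cast_add, Int.toNat_natCast]
    rwa [h2] at h1
  refine ⟨fun i => ?_, fun i j hij => ?_, ?_⟩
  · rw [hJe]
    refine ⟨hpr i, ?_⟩
    have h1 : n + t (k i) ≡ h₁ + t (k i) [MOD Λ] := (m1.of_dvd hΛa).add_right _
    exact ((h1.trans (hab _ (htS _ (hkK i)))).of_dvd hLΛ).trans (hb'3.trans hbJ.symm)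
  · rw [hJe, hJe, hasym n m1 _ (htS _ (hkK i)) _ (htS _ (hkK j)) (hh0 hij)
      (lt_of_le_of_lt (hYS _ (htS _ (hkK j))) m2) (hpr i)]
    rw [hidx _ (hkK i), hidx _ (hkK j), hcls, hcls, hwp]
    simp only
    rw [if_pos ⟨Fin.lt_def.1 (hem hij), by rw [hN]; exact (em j).2⟩, hemε i j hij, hεe]
  · have h1 : {p : ℕ | p.Prime ∧ |(p : ℤ) - n| ≤ YJ J} ⊆ (I.image (fun i => n + t i) : Finset ℕ) := by
      rintro p ⟨hp1, hp2⟩
      have h2 : |(p : ℤ) - n| ≤ (Y : ℤ) := hp2.trans (by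
        rw [hY]
        exact_mod_cast le_max_left _ _)
      have h3 := m3 ((p : ℤ) - n) h2
      have h4 : ((n : ℤ) + ((p : ℤ) - n)).toNat = p := by
        rw [add_sub_cancel, Int.toNat_natCast]
      rw [h4] at h3
      obtain ⟨i, hi, hi2⟩ := h3.1 hp1
      refine Finset.mem_coe.2 (Finset.mem_image.2 ⟨i, hi, ?_⟩)
      have h5 : (p : ℤ) = ((n + t i : ℕ) : ℤ) := by
        push_cast
        linarith
      exact_mod_cast h5.symm
    have h2 := Set.ncard_le_ncard h1 (Finset.finite_toSet _)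
    rw [Set.ncard_coe_finset] at h2
    refine (h2.trans Finset.card_image_le).trans ?_
    have h3 : I ⊆ range K' := fun i hi => Finset.mem_range.2 (hI1 i hi)
    have h4 := Finset.card_le_card h3
    rwa [Finset.card_range] at h4

end Pool.Agent.U974.PP
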