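import Mathlib
import Pool.Agent.U974.PP.Ram
import Pool.Agent.U974.PP.Count

/-! # A positive proportion of the tuples is good -/

set_option autoImplicit false

namespace Pool.Agent.U974.PP

open Finset

theorem gen_of {K Λ z : ℕ} (ρ : ℕ) (hΛ0 : 0 < Λ) (hΛz : Λ ≤ z) (u : Fin K → ℕ) (h1 : ¬ Bad1 z u)
    (h2 : ¬ Bad2 z u) :
    Function.Injective u ∧ Gen Λ z (univ.image (fun i => ρ + Λ * u i)) := by
  classical
  have hinj : Function.Injective u := by
    intro i j hij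
    by_contra hne
    exact h1 ⟨i, j, hne, 0, by rw [hij, add_zero], fun h => absurd h.1 (lt_irrefl _)⟩
  refine ⟨hinj, ?_, ?_, ?_⟩
  · intro s hs s' hs'
    obtain ⟨i, _, rfl⟩ := mem_image.1 hs
    obtain ⟨j, _, rfl⟩ := mem_image.1 hs'
    have h3 : ∀ k, ρ + Λ * u k ≡ ρ + 0 [MOD Λ] := fun k =>
      (Nat.modEq_zero_iff_dvd.2 (Nat.dvd_mul_right _ _)).add_left _
    exact (h3 i).trans (h3 j).symm
  · intro s hs s' hs' hss
    obtain ⟨i, _, rfl⟩ := mem_image.1 hs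
    obtain ⟨j, _, rfl⟩ := mem_image.1 hs'
    have h3 : u i < u j := by
      by_contra hcon
      push Not at hcon
      have := Nat.mul_le_mul_left Λ hcon
      omega
    have hij : i ≠ j := fun h => by rw [h] at h3; exact lt_irrefl _ h3
    have h4 : Priv z (u j - u i) := by
      by_contra hcon
      exact h1 ⟨i, j, hij, u j - u i, by omega, hcon⟩
    obtain ⟨_, q, R, r, hq, hz, hd, hR⟩ := h4
    refine ⟨q, Λ * R, r, hq, hz, ?_, ?_⟩
    · rw [Nat.add_sub_add_left, ← Nat.mul_sub, hd]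
      ring
    · intro hdv
      rcases (Nat.Prime.dvd_mul hq).1 hdv with h5 | h5
      · have := Nat.le_of_dvd hΛ0 h5
        omega
      · exact hR h5
  · intro q hq hz s₁ hs₁ s₁' hs₁' hss₁ s₂ hs₂ s₂' hs₂' hss₂ hd1 hd2
    obtain ⟨i, _, rfl⟩ := mem_image.1 hs₁
    obtain ⟨j, _, rfl⟩ := mem_image.1 hs₁'
    obtain ⟨k, _, rfl⟩ := mem_image.1 hs₂
    obtain ⟨l, _, rfl⟩ := mem_image.1 hs₂'
    have hlt : ∀ {x y : ℕ}, ρ + Λ * x < ρ + Λ * y → x < y := by
      intro x y h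
      by_contra hcon
      push Not at hcon
      have := Nat.mul_le_mul_left Λ hcon
      omega
    have hij := hlt hss₁
    have hkl := hlt hss₂
    have hqΛ : ¬ q ∣ Λ := fun h => by
      have := Nat.le_of_dvd hΛ0 h
      omega
    have hmod : ∀ {x y : ℕ}, x < y → q ∣ ρ + Λ * y - (ρ + Λ * x) → x ≡ y [MOD q] := by
      intro x y hxy h
      rw [Nat.add_sub_add_left, ← Nat.mul_sub] at h
      exact (Nat.modEq_iff_dvd' hxy.le).2 (((Nat.Prime.dvd_mul hq).1 h).resolve_left hqΛ)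
    by_contra hcon
    apply h2
    refine ⟨q, hq, hz, i, j, k, l, fun h => by rw [h] at hij; exact lt_irrefl _ hij,
      fun h => by rw [h] at hkl; exact lt_irrefl _ hkl, ?_, ?_, hmod hij hd1, hmod hkl hd2⟩
    · rintro ⟨rfl, rfl⟩
      exact hcon ⟨rfl, rfl⟩
    · rintro ⟨rfl, rfl⟩
      omega

theorem super {K m : ℕ} (Y : ℕ) (G : Finset (Fin m → ℕ)) (U : Finset (Fin K → ℕ)) (hU : U ⊆ Om K Y)
    (h : ∀ u ∈ U, ∃ σ : Fin m → Fin K, Function.Injective σ ∧ (fun i => u (σ i)) ∈ G) :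
    U.card ≤ K ^ m * (G.card * Y ^ (K - m)) := by
  classical
  have hsub : U ⊆ (univ.filter (fun σ : Fin m → Fin K => Function.Injective σ)).biUnion
      (fun σ => (Om K Y).filter (fun u => (fun i => u (σ i)) ∈ G)) := by
    intro u hu
    obtain ⟨σ, h1, h2⟩ := h u hu
    exact mem_biUnion.2 ⟨σ, mem_filter.2 ⟨mem_univ _, h1⟩, mem_filter.2 ⟨hU hu, h2⟩⟩
  refine (card_le_card hsub).trans (card_biUnion_le.trans ?_)
  have h1 : ∀ σ ∈ univ.filter (fun σ : Fin m → Fin K => Function.Injective σ),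
      ((Om K Y).filter (fun u => (fun i => u (σ i)) ∈ G)).card ≤ G.card * Y ^ (K - m) := by
    intro σ hσ
    have hσ := (mem_filter.1 hσ).2
    have h2 := card_box (univ.image σ) 1 Y
    rw [card_image_of_injective _ hσ, card_univ, Fintype.card_fin, one_pow, one_mul] at h2
    rw [← h2, ← card_product]
    apply Finset.card_le_card_of_injOn
      (fun u => ((fun i => u (σ i)), (fun k => if k ∈ univ.image σ then 0 else u k)))
    · intro u hu
      obtain ⟨g1, g2⟩ := mem_filter.1 (mem_coe.1 hu)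
      rw [mem_coe, mem_product]
      refine ⟨g2, ?_⟩
      rw [Fintype.mem_piFinset]
      intro k
      show (if k ∈ univ.image σ then 0 else u k) ∈ _
      split_ifs with hk
      · exact mem_range.2 (by norm_num)
      · exact mem_range.2 (mem_Om.1 g1 k)
    · intro u _ v _ huv
      simp only [Prod.mk.injEq] at huv
      obtain ⟨g1, g2⟩ := huv
      funext k
      by_cases hk : k ∈ univ.image σ
      · obtain ⟨i, _, rfl⟩ := mem_image.1 hk
        exact congrFun g1 i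
      · have := congrFun g2 k
        rwa [if_neg hk, if_neg hk] at this
  refine (sum_le_sum h1).trans ?_
  rw [sum_const, smul_eq_mul]
  refine Nat.mul_le_mul_right _ ((card_le_univ _).trans ?_)
  rw [Fintype.card_fun, Fintype.card_fin, Fintype.card_fin]

/-- a class modulo `Λ` with many elements of `V` -/
theorem exists_cls {Λ x : ℕ} (hΛ : 0 < Λ) (V : Finset ℕ) (hV : ∀ v ∈ V, v ≤ x) :
    ∃ ρ : ℕ, V.card ≤ Λ * ((range (x / Λ + 1)).filter (fun u => ρ + Λ * u ∈ V)).card := by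
  classical
  by_contra hcon
  push Not at hcon
  have hsub : V ⊆ (range Λ).biUnion (fun ρ =>
      ((range (x / Λ + 1)).filter (fun u => ρ + Λ * u ∈ V)).image (fun u => ρ + Λ * u)) := by
    intro v hv
    have h1 := Nat.mod_add_div v Λ
    refine mem_biUnion.2 ⟨v % Λ, mem_range.2 (Nat.mod_lt _ hΛ), mem_image.2 ⟨v / Λ, mem_filter.2
      ⟨mem_range.2 (Nat.lt_succ_of_le (Nat.div_le_div_right (hV v hv))), by rw [h1]; exact hv⟩, h1⟩⟩
  have h1 : V.card ≤ ∑ ρ ∈ range Λ, ((range (x / Λ + 1)).filter (fun u => ρ + Λ * u ∈ V)).card :=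
    (card_le_card hsub).trans (card_biUnion_le.trans (sum_le_sum fun ρ _ => card_image_le))
  have h2 : Λ * V.card ≤ ∑ ρ ∈ range Λ, Λ * ((range (x / Λ + 1)).filter (fun u => ρ + Λ * u ∈ V)).card := by
    rw [← mul_sum]
    exact Nat.mul_le_mul_left _ h1
  have h3 : ∑ ρ ∈ range Λ, Λ * ((range (x / Λ + 1)).filter (fun u => ρ + Λ * u ∈ V)).card <
      ∑ _ρ ∈ range Λ, V.card := by
    apply sum_lt_sum_of_nonempty
    · exact ⟨0, mem_range.2 hΛ⟩
    · intro ρ _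
      exact hcon ρ
  rw [sum_const, card_range, smul_eq_mul] at h3
  omega

/-- **a positive proportion** -/
theorem main (m L : ℕ) (hL : 0 < L) : ∃ B : ℕ, ∀ δ : ℝ, 0 < δ → ∃ c : ℝ, 0 < c ∧ ∃ x₀ : ℕ, ∀ x : ℕ, x₀ ≤ x →
    ∀ V : Finset ℕ, (∀ v ∈ V, v ≤ x) → δ * x ≤ V.card →
      c * (x : ℝ) ^ m ≤ ({h : Fin m → ℕ | StrictMono h ∧ (∀ i, h i ∈ V) ∧ GoodT L B h}.ncard : ℝ) := by
  classical
  obtain ⟨K₀, Λ, B, hΛ0, hgood⟩ := exists_good m L hL
  obtain ⟨K, hK⟩ : ∃ K, K = K₀ + m + 2 := ⟨_, rfl⟩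
  refine ⟨B, fun δ hδ => ?_⟩
  obtain ⟨θ, hθ⟩ : ∃ θ : ℝ, θ = δ / 2 := ⟨_, rfl⟩
  have hθ0 : 0 < θ := by rw [hθ]; positivity
  have hΛr : (0 : ℝ) < Λ := by exact_mod_cast hΛ0
  obtain ⟨z₁, hz₁⟩ := exists_nat_gt (32 * (K : ℝ) ^ 4 / θ ^ K)
  obtain ⟨z, hz⟩ : ∃ z, z = max z₁ Λ := ⟨_, rfl⟩
  have hzΛ : Λ ≤ z := by rw [hz]; exact le_max_right _ _
  have hz8 : 8 * (K : ℝ) ^ 4 / (z + 1) ≤ θ ^ K / 4 := by
    rw [div_le_iff₀ (by positivity)]
    have h1 : (z₁ : ℝ) ≤ z := by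
      rw [hz]
      exact_mod_cast le_max_left _ _
    rw [div_lt_iff₀ (by positivity)] at hz₁
    have h2 : (0 : ℝ) < θ ^ K := by positivity
    nlinarith
  obtain ⟨Y₀, hY₀⟩ := card_bad K z (by omega) (θ ^ K / 4) (by positivity)
  have hKr : (0 : ℝ) < K := by exact_mod_cast (by omega : 0 < K)
  refine ⟨θ ^ K / (2 * (K : ℝ) ^ m * (Λ : ℝ) ^ m), by positivity, Λ * (Y₀ + 1), fun x hx V hV hVc => ?_⟩
  obtain ⟨ρ, hρ⟩ := exists_cls hΛ0 V hV
  obtain ⟨Y, hY⟩ : ∃ Y, Y = x / Λ + 1 := ⟨_, rfl⟩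
  rw [← hY] at hρ
  have hxΛ : Λ ≤ x := le_trans (Nat.le_mul_of_pos_right _ (Nat.succ_pos _)) hx
  have hY1 : Y₀ ≤ Y := by
    have h1 : Y₀ + 1 ≤ x / Λ := by
      rw [Nat.le_div_iff_mul_le hΛ0, mul_comm]
      exact hx
    omega
  have hYge : (x : ℝ) / Λ ≤ Y := by
    rw [hY]
    have h1 := Nat.lt_div_mul_add (a := x) hΛ0
    rw [div_le_iff₀ hΛr]
    have h2 : x < (x / Λ + 1) * Λ := by
      rw [add_mul, one_mul]
      exact h1
    exact_mod_cast h2.le
  have hYle : (Y : ℝ) ≤ 2 * x / Λ := by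
    rw [hY]
    have h1 : ((x / Λ : ℕ) : ℝ) ≤ (x : ℝ) / Λ := Nat.cast_div_le
    have h2 : (1 : ℝ) ≤ (x : ℝ) / Λ := by
      rw [le_div_iff₀ hΛr, one_mul]
      exact_mod_cast hxΛ
    push_cast
    have h3 : 2 * (x : ℝ) / Λ = (x : ℝ) / Λ + (x : ℝ) / Λ := by ring
    linarith
  obtain ⟨W, hW⟩ : ∃ W, W = (range Y).filter (fun u => ρ + Λ * u ∈ V) := ⟨_, rfl⟩
  rw [← hW] at hρ
  have hWc : θ * Y ≤ W.card := by
    have h1 : (V.card : ℝ) ≤ Λ * W.card := by exact_mod_cast hρ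
    have h2 : θ * Y ≤ δ * x / Λ := by
      calc θ * Y ≤ θ * (2 * x / Λ) := by gcongr
        _ = δ * x / Λ := by rw [hθ]; ring
    have h3 : δ * x / Λ ≤ W.card := by
      rw [div_le_iff₀ hΛr]
      linarith
    linarith
  obtain ⟨PW, hPW⟩ : ∃ PW : Finset (Fin K → ℕ), PW = Fintype.piFinset (fun _ : Fin K => W) := ⟨_, rfl⟩
  have hPWsub : PW ⊆ Om K Y := by
    intro u hu
    rw [hPW, Fintype.mem_piFinset] at hu
    rw [mem_Om]
    intro i
    have h1 := hu i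
    rw [hW] at h1
    exact mem_range.1 (mem_filter.1 h1).1
  have hPWc : (θ * Y) ^ K ≤ (PW.card : ℝ) := by
    rw [hPW, Fintype.card_piFinset_const]
    push_cast
    exact pow_le_pow_left₀ (by positivity) hWc K
  obtain ⟨U, hU⟩ : ∃ U : Finset (Fin K → ℕ), U = PW.filter (fun u => ¬ (Bad1 z u ∨ Bad2 z u)) := ⟨_, rfl⟩
  have hUc : θ ^ K / 2 * (Y : ℝ) ^ K ≤ (U.card : ℝ) := by
    have h1 : PW.card = (PW.filter (fun u => Bad1 z u ∨ Bad2 z u)).card + U.card := by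
      rw [hU, card_filter_add_card_filter_not]
    have h2 : ((PW.filter (fun u => Bad1 z u ∨ Bad2 z u)).card : ℝ) ≤
        (θ ^ K / 4 + 8 * (K : ℝ) ^ 4 / (z + 1)) * (Y : ℝ) ^ K := by
      refine le_trans ?_ (hY₀ Y hY1)
      exact_mod_cast card_le_card (filter_subset_filter _ hPWsub)
    have h3 : (θ ^ K / 4 + 8 * (K : ℝ) ^ 4 / (z + 1)) * (Y : ℝ) ^ K ≤ θ ^ K / 2 * (Y : ℝ) ^ K := by
      apply mul_le_mul_of_nonneg_right _ (by positivity)
      linarith
    have h4 : (PW.card : ℝ) = ((PW.filter (fun u => Bad1 z u ∨ Bad2 z u)).card : ℝ) + U.card := by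
      exact_mod_cast h1
    rw [mul_pow] at hPWc
    have h5 : θ ^ K / 2 * (Y : ℝ) ^ K + θ ^ K / 2 * (Y : ℝ) ^ K = θ ^ K * (Y : ℝ) ^ K := by ring
    linarith
  obtain ⟨G, hG⟩ : ∃ G : Finset (Fin m → ℕ), G = (Fintype.piFinset (fun _ : Fin m => W)).filter
    (fun g => StrictMono g ∧ GoodT L B (fun i => ρ + Λ * g i)) := ⟨_, rfl⟩
  have hsup := super Y G U (by
    rw [hU]
    exact (filter_subset _ _).trans hPWsub) (by
    intro u hu
    rw [hU] at hu
    obtain ⟨hu1, hu2⟩ := mem_filter.1 hu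
    rw [not_or] at hu2
    obtain ⟨hinj, hgen⟩ := gen_of ρ hΛ0 hzΛ u hu2.1 hu2.2
    have hinj2 : Function.Injective (fun i => ρ + Λ * u i) := by
      intro i j hij
      apply hinj
      have h1 : Λ * u i = Λ * u j := Nat.add_left_cancel hij
      exact Nat.eq_of_mul_eq_mul_left hΛ0 h1
    obtain ⟨h, h1, h2, h3⟩ := hgood z hzΛ _ (by
      rw [card_image_of_injective _ hinj2, card_univ, Fintype.card_fin]
      omega) hgen
    have h4 : ∀ i, ∃ k : Fin K, ρ + Λ * u k = h i := by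
      intro i
      obtain ⟨k, _, hk⟩ := mem_image.1 (h2 i)
      exact ⟨k, hk⟩
    choose σ hσ using h4
    refine ⟨σ, ?_, ?_⟩
    · intro i j hij
      apply h1.injective
      rw [← hσ i, ← hσ j, hij]
    · rw [hG]
      refine mem_filter.2 ⟨?_, ?_, ?_⟩
      · rw [Fintype.mem_piFinset]
        intro i
        rw [hPW, Fintype.mem_piFinset] at hu1
        exact hu1 (σ i)
      · intro i j hij
        have h5 := h1 hij
        rw [← hσ i, ← hσ j] at h5
        by_contra hcon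
        push Not at hcon
        have := Nat.mul_le_mul_left Λ hcon
        omega
      · have h5 : (fun i => ρ + Λ * u (σ i)) = h := funext hσ
        rw [h5]
        exact h3)
  -- the conclusion
  have hGle : (G.card : ℝ) ≤
      ({h : Fin m → ℕ | StrictMono h ∧ (∀ i, h i ∈ V) ∧ GoodT L B h}.ncard : ℝ) := by
    have h1 : (G.image (fun g i => ρ + Λ * g i) : Set (Fin m → ℕ)) ⊆
        {h : Fin m → ℕ | StrictMono h ∧ (∀ i, h i ∈ V) ∧ GoodT L B h} := by
      intro h hh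
      rw [mem_coe] at hh
      obtain ⟨g, hg, rfl⟩ := mem_image.1 hh
      rw [hG] at hg
      obtain ⟨g1, g2, g3⟩ := mem_filter.1 hg
      refine ⟨fun i j hij => ?_, fun i => ?_, g3⟩
      · have := Nat.mul_lt_mul_of_pos_left (g2 hij) hΛ0
        show ρ + Λ * g i < ρ + Λ * g j
        omega
      · rw [Fintype.mem_piFinset] at g1
        have h2 := g1 i
        rw [hW] at h2
        exact (mem_filter.1 h2).2
    have hfin : {h : Fin m → ℕ | StrictMono h ∧ (∀ i, h i ∈ V) ∧ GoodT L B h}.Finite := by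
      refine (Fintype.piFinset (fun _ : Fin m => V)).finite_toSet.subset ?_
      rintro h ⟨-, h2, -⟩
      rw [mem_coe, Fintype.mem_piFinset]
      exact h2
    have h2 := Set.ncard_le_ncard h1 hfin
    rw [Set.ncard_coe_finset, card_image_of_injective] at h2
    · exact_mod_cast h2
    · intro g g' hgg
      funext i
      have h3 : ρ + Λ * g i = ρ + Λ * g' i := congrFun hgg i
      exact Nat.eq_of_mul_eq_mul_left hΛ0 (Nat.add_left_cancel h3)
  refine le_trans ?_ hGle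
  have h1 : (U.card : ℝ) ≤ (K : ℝ) ^ m * (G.card * (Y : ℝ) ^ (K - m)) := by exact_mod_cast hsup
  have hYpos : (0 : ℝ) < Y := by
    have : 0 < Y := by
      rw [hY]
      exact Nat.succ_pos _
    exact_mod_cast this
  have h2 : (Y : ℝ) ^ K = (Y : ℝ) ^ m * (Y : ℝ) ^ (K - m) := by
    rw [← pow_add]
    congr 1
    omega
  have h3 : θ ^ K / 2 * (Y : ℝ) ^ m ≤ (K : ℝ) ^ m * G.card := by
    have h4 : θ ^ K / 2 * (Y : ℝ) ^ m * (Y : ℝ) ^ (K - m) ≤ (K : ℝ) ^ m * G.card * (Y : ℝ) ^ (K - m) := by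
      rw [h2] at hUc
      linarith
    exact le_of_mul_le_mul_right h4 (by positivity)
  have h5 : ((x : ℝ) / Λ) ^ m ≤ (Y : ℝ) ^ m := pow_le_pow_left₀ (by positivity) hYge m
  have h6 : θ ^ K / 2 * ((x : ℝ) / Λ) ^ m ≤ (K : ℝ) ^ m * G.card :=
    (mul_le_mul_of_nonneg_left h5 (by positivity)).trans h3
  have h7 : θ ^ K / (2 * (K : ℝ) ^ m * (Λ : ℝ) ^ m) * (x : ℝ) ^ m =
      (θ ^ K / 2 * ((x : ℝ) / Λ) ^ m) / (K : ℝ) ^ m := by
    rw [div_pow]
    field_simp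
  rw [h7, div_le_iff₀ (by positivity)]
  linarith

end Pool.Agent.U974.PP
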