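import Mathlib
import Pool.Agent.U974.PP.Main

/-! # A positive proportion of the tuples has a property which all generic sets have -/

set_option autoImplicit false

namespace Pool.Agent.U974.PP

open Finset

/-- **a positive proportion** -/
theorem main_gen {m K₀ Λ : ℕ} (hΛ0 : 0 < Λ) (P : (Fin m → ℕ) → Prop) (hgood : ∀ z, Λ ≤ z → ∀ T : Finset ℕ,
    K₀ ≤ T.card → Gen Λ z T → ∃ h : Fin m → ℕ, StrictMono h ∧ (∀ i, h i ∈ T) ∧ P h) (δ : ℝ) (hδ : 0 < δ) :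
    ∃ c : ℝ, 0 < c ∧ ∃ x₀ : ℕ, ∀ x : ℕ, x₀ ≤ x →
    ∀ V : Finset ℕ, (∀ v ∈ V, v ≤ x) → δ * x ≤ V.card →
      c * (x : ℝ) ^ m ≤ ({h : Fin m → ℕ | StrictMono h ∧ (∀ i, h i ∈ V) ∧ P h}.ncard : ℝ) := by
  classical
  obtain ⟨K, hK⟩ : ∃ K, K = K₀ + m + 2 := ⟨_, rfl⟩
  obtain ⟨θ, hθ⟩ : ∃ θ : ℝ, θ = δ / 2 := ⟨_, rfl⟩
  have hθ0 : 0 < θ := by rw [hθ]; positivity
  have hΛr : (0 : ℝ) < Λ := by exact_mod_cast hΛ0
  obtain ⟨z₁, hz₁⟩ := exists_nat_gt (32 * (K : ℝ) ^ 4 / θ ^ K)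
  obtain ⟨z, hz⟩ : ∃ z, z = max z₁ Λ := ⟨_, rfl⟩
  have hzΛ : Λ ≤ z := by rw [hz]; exact le_max_right _ _
  have hz8 : 8 * (K : ℝ) ^ 4 / (z + 1) ≤ θ ^ K / 4 := by
    rw [div_le_iff₀ (by positivity)]
    have h1 : (z₁ : ℝ) ≤ z := by
      rw [hz]
      exact_mod_cast le_max_left _ _
    rw [div_lt_iff₀ (by positivity)] at hz₁
    have h2 : (0 : ℝ) < θ ^ K := by positivity
    nlinarith
  obtain ⟨Y₀, hY₀⟩ := card_bad K z (by omega) (θ ^ K / 4) (by positivity)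
  have hKr : (0 : ℝ) < K := by exact_mod_cast (by omega : 0 < K)
  refine ⟨θ ^ K / (2 * (K : ℝ) ^ m * (Λ : ℝ) ^ m), by positivity, Λ * (Y₀ + 1), fun x hx V hV hVc => ?_⟩
  obtain ⟨ρ, hρ⟩ := exists_cls hΛ0 V hV
  obtain ⟨Y, hY⟩ : ∃ Y, Y = x / Λ + 1 := ⟨_, rfl⟩
  rw [← hY] at hρ
  have hxΛ : Λ ≤ x := le_trans (Nat.le_mul_of_pos_right _ (Nat.succ_pos _)) hx
  have hY1 : Y₀ ≤ Y := by
    have h1 : Y₀ + 1 ≤ x / Λ := by
      rw [Nat.le_div_iff_mul_le hΛ0, mul_comm]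
      exact hx
    omega
  have hYge : (x : ℝ) / Λ ≤ Y := by
    rw [hY]
    have h1 := Nat.lt_div_mul_add (a := x) hΛ0
    rw [div_le_iff₀ hΛr]
    have h2 : x < (x / Λ + 1) * Λ := by
      rw [add_mul, one_mul]
      exact h1
    exact_mod_cast h2.le
  have hYle : (Y : ℝ) ≤ 2 * x / Λ := by
    rw [hY]
    have h1 : ((x / Λ : ℕ) : ℝ) ≤ (x : ℝ) / Λ := Nat.cast_div_le
    have h2 : (1 : ℝ) ≤ (x : ℝ) / Λ := by
      rw [le_div_iff₀ hΛr, one_mul]
      exact_mod_cast hxΛ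
    push_cast
    have h3 : 2 * (x : ℝ) / Λ = (x : ℝ) / Λ + (x : ℝ) / Λ := by ring
    linarith
  obtain ⟨W, hW⟩ : ∃ W, W = (range Y).filter (fun u => ρ + Λ * u ∈ V) := ⟨_, rfl⟩
  rw [← hW] at hρ
  have hWc : θ * Y ≤ W.card := by
    have h1 : (V.card : ℝ) ≤ Λ * W.card := by exact_mod_cast hρ
    have h2 : θ * Y ≤ δ * x / Λ := by
      calc θ * Y ≤ θ * (2 * x / Λ) := by gcongr
        _ = δ * x / Λ := by rw [hθ]; ring
    have h3 : δ * x / Λ ≤ W.card := by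
      rw [div_le_iff₀ hΛr]
      linarith
    linarith
  obtain ⟨PW, hPW⟩ : ∃ PW : Finset (Fin K → ℕ), PW = Fintype.piFinset (fun _ : Fin K => W) := ⟨_, rfl⟩
  have hPWsub : PW ⊆ Om K Y := by
    intro u hu
    rw [hPW, Fintype.mem_piFinset] at hu
    rw [mem_Om]
    intro i
    have h1 := hu i
    rw [hW] at h1
    exact mem_range.1 (mem_filter.1 h1).1
  have hPWc : (θ * Y) ^ K ≤ (PW.card : ℝ) := by
    rw [hPW, Fintype.card_piFinset_const]
    push_cast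
    exact pow_le_pow_left₀ (by positivity) hWc K
  obtain ⟨U, hU⟩ : ∃ U : Finset (Fin K → ℕ), U = PW.filter (fun u => ¬ (Bad1 z u ∨ Bad2 z u)) := ⟨_, rfl⟩
  have hUc : θ ^ K / 2 * (Y : ℝ) ^ K ≤ (U.card : ℝ) := by
    have h1 : PW.card = (PW.filter (fun u => Bad1 z u ∨ Bad2 z u)).card + U.card := by
      rw [hU, card_filter_add_card_filter_not]
    have h2 : ((PW.filter (fun u => Bad1 z u ∨ Bad2 z u)).card : ℝ) ≤
        (θ ^ K / 4 + 8 * (K : ℝ) ^ 4 / (z + 1)) * (Y : ℝ) ^ K := by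
      refine le_trans ?_ (hY₀ Y hY1)
      exact_mod_cast card_le_card (filter_subset_filter _ hPWsub)
    have h3 : (θ ^ K / 4 + 8 * (K : ℝ) ^ 4 / (z + 1)) * (Y : ℝ) ^ K ≤ θ ^ K / 2 * (Y : ℝ) ^ K := by
      apply mul_le_mul_of_nonneg_right _ (by positivity)
      linarith
    have h4 : (PW.card : ℝ) = ((PW.filter (fun u => Bad1 z u ∨ Bad2 z u)).card : ℝ) + U.card := by
      exact_mod_cast h1
    rw [mul_pow] at hPWc
    have h5 : θ ^ K / 2 * (Y : ℝ) ^ K + θ ^ K / 2 * (Y : ℝ) ^ K = θ ^ K * (Y : ℝ) ^ K := by ring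
    linarith
  obtain ⟨G, hG⟩ : ∃ G : Finset (Fin m → ℕ), G = (Fintype.piFinset (fun _ : Fin m => W)).filter
    (fun g => StrictMono g ∧ P (fun i => ρ + Λ * g i)) := ⟨_, rfl⟩
  have hsup := super Y G U (by
    rw [hU]
    exact (filter_subset _ _).trans hPWsub) (by
    intro u hu
    rw [hU] at hu
    obtain ⟨hu1, hu2⟩ := mem_filter.1 hu
    rw [not_or] at hu2
    obtain ⟨hinj, hgen⟩ := gen_of ρ hΛ0 hzΛ u hu2.1 hu2.2
    have hinj2 : Function.Injective (fun i => ρ + Λ * u i) := by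
      intro i j hij
      apply hinj
      have h1 : Λ * u i = Λ * u j := Nat.add_left_cancel hij
      exact Nat.eq_of_mul_eq_mul_left hΛ0 h1
    obtain ⟨h, h1, h2, h3⟩ := hgood z hzΛ _ (by
      rw [card_image_of_injective _ hinj2, card_univ, Fintype.card_fin]
      omega) hgen
    have h4 : ∀ i, ∃ k : Fin K, ρ + Λ * u k = h i := by
      intro i
      obtain ⟨k, _, hk⟩ := mem_image.1 (h2 i)
      exact ⟨k, hk⟩
    choose σ hσ using h4
    refine ⟨σ, ?_, ?_⟩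
    · intro i j hij
      apply h1.injective
      rw [← hσ i, ← hσ j, hij]
    · rw [hG]
      refine mem_filter.2 ⟨?_, ?_, ?_⟩
      · rw [Fintype.mem_piFinset]
        intro i
        rw [hPW, Fintype.mem_piFinset] at hu1
        exact hu1 (σ i)
      · intro i j hij
        have h5 := h1 hij
        rw [← hσ i, ← hσ j] at h5
        by_contra hcon
        push Not at hcon
        have := Nat.mul_le_mul_left Λ hcon
        omega
      · have h5 : (fun i => ρ + Λ * u (σ i)) = h := funext hσ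
        rw [h5]
        exact h3)
  -- the conclusion
  have hGle : (G.card : ℝ) ≤
      ({h : Fin m → ℕ | StrictMono h ∧ (∀ i, h i ∈ V) ∧ P h}.ncard : ℝ) := by
    have h1 : (G.image (fun g i => ρ + Λ * g i) : Set (Fin m → ℕ)) ⊆
        {h : Fin m → ℕ | StrictMono h ∧ (∀ i, h i ∈ V) ∧ P h} := by
      intro h hh
      rw [mem_coe] at hh
      obtain ⟨g, hg, rfl⟩ := mem_image.1 hh
      rw [hG] at hg
      obtain ⟨g1, g2, g3⟩ := mem_filter.1 hg
      refine ⟨fun i j hij => ?_, fun i => ?_, g3⟩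
      · have := Nat.mul_lt_mul_of_pos_left (g2 hij) hΛ0
        show ρ + Λ * g i < ρ + Λ * g j
        omega
      · rw [Fintype.mem_piFinset] at g1
        have h2 := g1 i
        rw [hW] at h2
        exact (mem_filter.1 h2).2
    have hfin : {h : Fin m → ℕ | StrictMono h ∧ (∀ i, h i ∈ V) ∧ P h}.Finite := by
      refine (Fintype.piFinset (fun _ : Fin m => V)).finite_toSet.subset ?_
      rintro h ⟨-, h2, -⟩
      rw [mem_coe, Fintype.mem_piFinset]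
      exact h2
    have h2 := Set.ncard_le_ncard h1 hfin
    rw [Set.ncard_coe_finset, card_image_of_injective] at h2
    · exact_mod_cast h2
    · intro g g' hgg
      funext i
      have h3 : ρ + Λ * g i = ρ + Λ * g' i := congrFun hgg i
      exact Nat.eq_of_mul_eq_mul_left hΛ0 (Nat.add_left_cancel h3)
  refine le_trans ?_ hGle
  have h1 : (U.card : ℝ) ≤ (K : ℝ) ^ m * (G.card * (Y : ℝ) ^ (K - m)) := by exact_mod_cast hsup
  have hYpos : (0 : ℝ) < Y := by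
    have : 0 < Y := by
      rw [hY]
      exact Nat.succ_pos _
    exact_mod_cast this
  have h2 : (Y : ℝ) ^ K = (Y : ℝ) ^ m * (Y : ℝ) ^ (K - m) := by
    rw [← pow_add]
    congr 1
    omega
  have h3 : θ ^ K / 2 * (Y : ℝ) ^ m ≤ (K : ℝ) ^ m * G.card := by
    have h4 : θ ^ K / 2 * (Y : ℝ) ^ m * (Y : ℝ) ^ (K - m) ≤ (K : ℝ) ^ m * G.card * (Y : ℝ) ^ (K - m) := by
      rw [h2] at hUc
      linarith
    exact le_of_mul_le_mul_right h4 (by positivity)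
  have h5 : ((x : ℝ) / Λ) ^ m ≤ (Y : ℝ) ^ m := pow_le_pow_left₀ (by positivity) hYge m
  have h6 : θ ^ K / 2 * ((x : ℝ) / Λ) ^ m ≤ (K : ℝ) ^ m * G.card :=
    (mul_le_mul_of_nonneg_left h5 (by positivity)).trans h3
  have h7 : θ ^ K / (2 * (K : ℝ) ^ m * (Λ : ℝ) ^ m) * (x : ℝ) ^ m =
      (θ ^ K / 2 * ((x : ℝ) / Λ) ^ m) / (K : ℝ) ^ m := by
    rw [div_pow]
    field_simp
  rw [h7, div_le_iff₀ (by positivity)]
  linarith

end Pool.Agent.U974.PP
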