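import Mathlib
import Pool.Agent.U974.PP.Ram
import Pool.Agent.U974.PP.MainG

/-! # Large generic sets contain good tuples of primes of one colour -/

set_option autoImplicit false

namespace Pool.Agent.U974.PP

open Finset
open Pool.Agent.U974.LG
open Pool.Agent.U974.TW (cls cls_spec cls_eq cls_mono)

/-- the tuple is good, with primes of one colour -/
def GoodC {C : Type} (κ : ℕ → C) (L B : ℕ) {m : ℕ} (h : Fin m → ℕ) : Prop :=
  ∀ ε : Fin m → Fin m → ℤ, (∀ i j, ε i j = 1 ∨ ε i j = -1) → ∀ b : ℕ, b.Coprime L → ∃ c : C, ∀ Y : ℕ,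
    {n : ℕ | (∀ i, (n + h i).Prime ∧ n + h i ≡ b [MOD L] ∧ κ (n + h i) = c) ∧
      (∀ i j, i < j → jacobiSym ((n + h j : ℕ) : ℤ) (n + h i) = ε i j) ∧
      {p : ℕ | p.Prime ∧ |(p : ℤ) - n| ≤ Y}.ncard ≤ B}.Infinite

/-- one value for infinitely many elements of a decreasing sequence of infinite sets -/
theorem pigeon {D : Type} [Finite D] (A : ℕ → Set ℕ) (hA : ∀ Y, (A Y).Infinite)
    (hmono : ∀ Y Y', Y ≤ Y' → A Y' ⊆ A Y) (col : ℕ → D) : ∃ v : D, ∀ Y, {n | n ∈ A Y ∧ col n = v}.Infinite := by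
  classical
  have := Fintype.ofFinite D
  by_contra hcon
  push Not at hcon
  choose Yv hYv using hcon
  obtain ⟨Y, hY⟩ : ∃ Y, Y = Finset.univ.sup Yv := ⟨_, rfl⟩
  apply hA Y
  have h4 : A Y ⊆ ⋃ v : D, {n | n ∈ A (Yv v) ∧ col n = v} := by
    intro n hn
    refine Set.mem_iUnion.2 ⟨col n, hmono _ _ ?_ hn, rfl⟩
    rw [hY]
    exact Finset.le_sup (Finset.mem_univ _)
  refine (Set.finite_iUnion fun v => ?_).subset h4
  exact hYv v

theorem exists_goodC {C : Type} [Fintype C] [Nonempty C] (κ : ℕ → C) (m L : ℕ) (hL : 0 < L) :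
    ∃ K Λ B : ℕ, 0 < Λ ∧ ∀ z, Λ ≤ z → ∀ T : Finset ℕ, K ≤ T.card →
    Gen Λ z T → ∃ h : Fin m → ℕ, StrictMono h ∧ (∀ i, h i ∈ T) ∧ GoodC κ L B h := by
  classical
  have hC0 : 0 < Fintype.card C := Fintype.card_pos
  obtain ⟨off, hoff, hoff0, Hh⟩ := hitsets
  obtain ⟨Q₀, hQ₀⟩ := embed_order m (1 / (800 * Fintype.card C)) (by positivity)
  obtain ⟨Q, hQge, hQ⟩ := Nat.exists_infinite_primes (Q₀ + 4)
  have : Fact Q.Prime := ⟨hQ⟩
  obtain ⟨N, hN⟩ : ∃ N, N = Q - 1 := ⟨_, rfl⟩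
  have hN0 : 0 < N := by omega
  obtain ⟨K', hK'⟩ : ∃ K', K' = off N := ⟨_, rfl⟩
  obtain ⟨K, hK⟩ := H152HR.ramsey ((Fin m → Fin m → Bool) × Fin L) m K'
  obtain ⟨Λ, hΛ⟩ : ∃ Λ : ℕ, Λ = 4 * L * ∏ p ∈ (Finset.range (2 * K' + 3)).filter Nat.Prime, p := ⟨_, rfl⟩
  have hprod0 : 0 < ∏ p ∈ (Finset.range (2 * K' + 3)).filter Nat.Prime, p :=
    Finset.prod_pos (fun p hp => (Finset.mem_filter.1 hp).2.pos)
  have hΛ0 : 0 < Λ := by rw [hΛ]; positivity
  have h4Λ : 4 ∣ Λ := by rw [hΛ]; exact Dvd.dvd.mul_right (Nat.dvd_mul_right _ _) _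
  have hLΛ : L ∣ Λ := by rw [hΛ]; exact Dvd.dvd.mul_right (Nat.dvd_mul_left _ _) _
  have hsm : ∀ p : ℕ, p.Prime → p ≤ 2 * K' + 2 → p ∣ Λ := by
    intro p hp hpK
    rw [hΛ]
    exact Dvd.dvd.mul_left (Finset.dvd_prod_of_mem _ (Finset.mem_filter.2 ⟨Finset.mem_range.2 (by omega), hp⟩)) _
  refine ⟨K, Λ, K', hΛ0, fun z hz T hTc hT => ?_⟩
  by_contra hcon
  push Not at hcon
  -- the bad data
  have hbad : ∀ J : Finset ℕ, ∃ (ε : Fin m → Fin m → ℤ) (b : ℕ) (Y : C → ℕ), ∀ hJ : J.card = m, J ⊆ T →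
      (∀ i j, ε i j = 1 ∨ ε i j = -1) ∧ b.Coprime L ∧ ∀ c : C,
      ¬ {n : ℕ | (∀ i, (n + J.orderEmbOfFin hJ i).Prime ∧ n + J.orderEmbOfFin hJ i ≡ b [MOD L] ∧
          κ (n + J.orderEmbOfFin hJ i) = c) ∧
        (∀ i j, i < j → jacobiSym ((n + J.orderEmbOfFin hJ j : ℕ) : ℤ) (n + J.orderEmbOfFin hJ i) = ε i j) ∧
        {p : ℕ | p.Prime ∧ |(p : ℤ) - n| ≤ Y c}.ncard ≤ K'}.Infinite := by
    intro J
    by_cases hJ : J.card = m ∧ J ⊆ T
    · obtain ⟨hJ1, hJ2⟩ := hJ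
      have h1 := hcon (fun i => J.orderEmbOfFin hJ1 i) (J.orderEmbOfFin hJ1).strictMono
        (fun i => hJ2 (Finset.orderEmbOfFin_mem J hJ1 i))
      unfold GoodC at h1
      rw [not_forall] at h1
      obtain ⟨ε, h1⟩ := h1
      rw [Classical.not_imp, not_forall] at h1
      obtain ⟨hε, b, h1⟩ := h1
      rw [Classical.not_imp, not_exists] at h1
      obtain ⟨hb, h1⟩ := h1
      have h2 : ∀ c : C, ∃ Y : ℕ, ¬ {n : ℕ | (∀ i, (n + J.orderEmbOfFin hJ1 i).Prime ∧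
          n + J.orderEmbOfFin hJ1 i ≡ b [MOD L] ∧ κ (n + J.orderEmbOfFin hJ1 i) = c) ∧
        (∀ i j, i < j → jacobiSym ((n + J.orderEmbOfFin hJ1 j : ℕ) : ℤ) (n + J.orderEmbOfFin hJ1 i) = ε i j) ∧
        {p : ℕ | p.Prime ∧ |(p : ℤ) - n| ≤ Y}.ncard ≤ K'}.Infinite := by
        intro c
        have h3 := h1 c
        rw [not_forall] at h3
        exact h3
      choose Y hY using h2
      exact ⟨ε, b, Y, fun _ _ => ⟨hε, hb, hY⟩⟩
    · exact ⟨fun _ _ => 1, 0, fun _ => 0, fun h1 h2 => absurd ⟨h1, h2⟩ hJ⟩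
  choose εJ bJ YJ hJbad using hbad
  obtain ⟨S, hST, hSc, ⟨e, β⟩, hcol⟩ := hK (fun J => (fun i j => decide (εJ J i j = 1),
    (⟨bJ J % L, Nat.mod_lt _ hL⟩ : Fin L))) T hTc
  -- the enumeration
  obtain ⟨t, ht⟩ : ∃ t : ℕ → ℕ, t = fun i => if h : i < K' then S.orderEmbOfFin hSc ⟨i, h⟩ else 0 := ⟨_, rfl⟩
  have htlt : ∀ i (h : i < K'), t i = S.orderEmbOfFin hSc ⟨i, h⟩ := fun i h => by rw [ht]; simp [h]
  have htmono : ∀ i j, i < j → j < K' → t i < t j := by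
    intro i j hij hj
    rw [htlt i (hij.trans hj), htlt j hj]
    exact (S.orderEmbOfFin hSc).strictMono hij
  have htS : ∀ i, i < K' → t i ∈ S := fun i hi => by
    rw [htlt i hi]
    exact Finset.orderEmbOfFin_mem S hSc _
  have hinj : Set.InjOn t {i | i < K'} := by
    intro i hi j hj hij
    rcases lt_trichotomy i j with h | h | h
    · exact absurd hij (htmono i j h hj).ne
    · exact h
    · exact absurd hij.symm (htmono j i h hi).ne
  obtain ⟨idx, hidx⟩ : ∃ idx : ℕ → ℕ, ∀ i, i < K' → idx (t i) = i :=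
    ⟨Function.invFunOn t {i | i < K'}, fun i hi => hinj.leftInvOn_invFunOn hi⟩
  obtain ⟨wp, hwp⟩ : ∃ wp : ℕ → ℕ → ℤ, wp = fun x y => if x < y ∧ y < N then
    chi Q (((y + 1 : ℕ) : ZMod Q) - ((x + 1 : ℕ) : ZMod Q)) else 1 := ⟨_, rfl⟩
  have hwpm : ∀ x y, wp x y = 1 ∨ wp x y = -1 := by
    intro x y
    rw [hwp]
    simp only
    split_ifs with h
    · have hne : ((y + 1 : ℕ) : ZMod Q) - ((x + 1 : ℕ) : ZMod Q) ≠ 0 := by
        intro h0
        have h1 := (ZMod.natCast_eq_natCast_iff' _ _ _).1 (sub_eq_zero.1 h0)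
        rw [Nat.mod_eq_of_lt (by omega), Nat.mod_eq_of_lt (by omega)] at h1
        omega
      exact quadraticChar_dichotomy hne
    · exact Or.inl rfl
  -- the class
  obtain ⟨b, hb, hbβ⟩ : ∃ b : ℕ, b.Coprime L ∧ ((β : ℕ).Coprime L → b = β) := by
    by_cases h : (β : ℕ).Coprime L
    · exact ⟨β, h, fun _ => rfl⟩
    · exact ⟨1, Nat.coprime_one_left L, fun h' => absurd h' h⟩
  obtain ⟨b', hb'1, hb'2, hb'3⟩ := Nat.forall_exists_prime_gt_and_modEq Λ hL.ne' hb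
  have hb'c : b'.Coprime Λ := by
    rw [Nat.Prime.coprime_iff_not_dvd hb'2]
    intro hd
    have := Nat.le_of_dvd hΛ0 hd
    omega
  obtain ⟨a, h₁, ha0, hΛa, hac, hab, hasym⟩ := symClass (w := fun s s' => wp (cls off (idx s)) (cls off (idx s')))
    h4Λ hΛ0 hz S (hT.mono hST) (by rw [hSc]; exact hsm) b' hb'c (fun s s' => hwpm _ _)
  obtain ⟨I, hI1, hI2, hI3⟩ := Hh N t a h₁ hN0 ha0 (by rw [← hK']; exact htmono)
    (by rw [← hK']; exact fun p hp hpK => (hsm p hp hpK).trans hΛa)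
    (by rw [← hK']; exact fun i hi => hac _ (htS i hi))
  rw [← hK'] at hI1
  -- the colours
  obtain ⟨v, hv⟩ := pigeon (fun Y : ℕ => {n : ℕ | n ≡ h₁ [MOD a] ∧ Y < n ∧
      ∀ z : ℤ, |z| ≤ Y → (((n : ℤ) + z).toNat.Prime ↔ ∃ i ∈ I, z = t i)}) hI3 (by
    rintro Y Y' hYY n ⟨x1, x2, x3⟩
    refine ⟨x1, lt_of_le_of_lt hYY x2, fun z hz => x3 z (hz.trans ?_)⟩
    exact_mod_cast hYY) (fun n => (fun i : Fin K' => κ (n + t i)))
  obtain ⟨cc, hcc⟩ : ∃ cc : C, N ≤ 800 * (Fintype.card C * ((range N).filter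
      (fun s => ∃ i, ∃ hi : i < K', i ∈ I ∧ v ⟨i, hi⟩ = cc ∧ off s ≤ i ∧ i < off (s + 1))).card) := by
    by_contra hcon2
    push Not at hcon2
    have h1 : ((range N).filter (fun s => ∃ i ∈ I, off s ≤ i ∧ i < off (s + 1))) ⊆
        Finset.univ.biUnion (fun c : C => (range N).filter
          (fun s => ∃ i, ∃ hi : i < K', i ∈ I ∧ v ⟨i, hi⟩ = c ∧ off s ≤ i ∧ i < off (s + 1))) := by
      intro s hs
      obtain ⟨x1, i, x2, x3, x4⟩ := Finset.mem_filter.1 hs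
      exact Finset.mem_biUnion.2 ⟨v ⟨i, hI1 i x2⟩, Finset.mem_univ _, Finset.mem_filter.2
        ⟨x1, i, hI1 i x2, x2, rfl, x3, x4⟩⟩
    have h2 := (Finset.card_le_card h1).trans Finset.card_biUnion_le
    have h3 : ∑ c : C, 800 * (Fintype.card C * ((range N).filter
        (fun s => ∃ i, ∃ hi : i < K', i ∈ I ∧ v ⟨i, hi⟩ = c ∧ off s ≤ i ∧ i < off (s + 1))).card) <
        ∑ _c : C, N := by
      apply Finset.sum_lt_sum_of_nonempty Finset.univ_nonempty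
      intro c _
      exact hcon2 c
    rw [Finset.sum_const, Finset.card_univ, smul_eq_mul, ← Finset.mul_sum, ← Finset.mul_sum] at h3
    have h4 : Fintype.card C * N ≤ Fintype.card C * (800 * ∑ c : C, ((range N).filter
        (fun s => ∃ i, ∃ hi : i < K', i ∈ I ∧ v ⟨i, hi⟩ = c ∧ off s ≤ i ∧ i < off (s + 1))).card) :=
      Nat.mul_le_mul_left _ (hI2.trans (Nat.mul_le_mul_left _ h2))
    have h5 : Fintype.card C * (800 * ∑ c : C, ((range N).filter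
        (fun s => ∃ i, ∃ hi : i < K', i ∈ I ∧ v ⟨i, hi⟩ = c ∧ off s ≤ i ∧ i < off (s + 1))).card) =
        800 * (Fintype.card C * ∑ c : C, ((range N).filter
        (fun s => ∃ i, ∃ hi : i < K', i ∈ I ∧ v ⟨i, hi⟩ = c ∧ off s ≤ i ∧ i < off (s + 1))).card) := by ring
    omega
  let E : Finset (Fin (Q - 1)) := Finset.univ.filter (fun e => ∃ i, ∃ hi : i < K', i ∈ I ∧ v ⟨i, hi⟩ = cc ∧
    off (e : ℕ) ≤ i ∧ i < off ((e : ℕ) + 1))
  have hEc : (1 / (800 * Fintype.card C) : ℝ) * ((Q - 1 : ℕ) : ℝ) ≤ E.card := by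
    have h1 : ((range N).filter (fun s => ∃ i, ∃ hi : i < K', i ∈ I ∧ v ⟨i, hi⟩ = cc ∧
        off s ≤ i ∧ i < off (s + 1))).card ≤ E.card := by
      have h2 : ((range N).filter (fun s => ∃ i, ∃ hi : i < K', i ∈ I ∧ v ⟨i, hi⟩ = cc ∧
          off s ≤ i ∧ i < off (s + 1))) ⊆ E.image (fun e : Fin (Q - 1) => (e : ℕ)) := by
        intro t ht
        obtain ⟨h3, h4⟩ := Finset.mem_filter.1 ht
        have h5 := Finset.mem_range.1 h3
        exact Finset.mem_image.2 ⟨⟨t, by omega⟩, Finset.mem_filter.2 ⟨Finset.mem_univ _, h4⟩, rfl⟩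
      exact (Finset.card_le_card h2).trans Finset.card_image_le
    have h2 : N ≤ 800 * (Fintype.card C * E.card) :=
      hcc.trans (Nat.mul_le_mul_left _ (Nat.mul_le_mul_left _ h1))
    have h3 : (N : ℝ) ≤ 800 * (Fintype.card C * E.card) := by exact_mod_cast h2
    have h4 : ((Q - 1 : ℕ) : ℝ) = (N : ℝ) := by rw [hN]
    have hCr : (0 : ℝ) < Fintype.card C := by exact_mod_cast hC0
    rw [h4, div_mul_eq_mul_div, one_mul, div_le_iff₀ (by positivity)]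
    linarith
  obtain ⟨em, hem, hemE, hemε⟩ := hQ₀ Q (by omega) E hEc (fun i j => if e i j then 1 else -1) (by
    intro i j
    split_ifs
    · exact Or.inl rfl
    · exact Or.inr rfl)
  have h1 : ∀ i, ∃ k, ∃ hk : k < K', k ∈ I ∧ v ⟨k, hk⟩ = cc ∧ off (em i) ≤ k ∧ k < off (em i + 1) := by
    intro i
    obtain ⟨k, hkK, hkI, hkc, hk⟩ := (Finset.mem_filter.1 (hemE i)).2
    exact ⟨k, hkK, hkI, hkc, hk⟩
  choose k hkK hkI hkc hk1 hk2 using h1
  have hcls : ∀ i, cls off (k i) = em i := fun i => cls_eq hoff hoff0 (hk1 i) (hk2 i)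
  have hklt : ∀ i i', i < i' → k i < k i' := by
    intro i i' hii
    by_contra hcon
    push Not at hcon
    have h2 := cls_mono hoff hoff0 hcon
    rw [hcls, hcls] at h2
    exact absurd h2 (not_le.2 (Fin.lt_def.1 (hem hii)))
  have hh0 : StrictMono (fun i => t (k i)) := fun i i' hii => htmono _ _ (hklt i i' hii) (hkK i')
  obtain ⟨J, hJ⟩ : ∃ J : Finset ℕ, J = Finset.univ.image (fun i => t (k i)) := ⟨_, rfl⟩
  have hJc : J.card = m := by
    rw [hJ, Finset.card_image_of_injective _ hh0.injective, Finset.card_univ, Fintype.card_fin]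
  have hJS : J ⊆ S := by
    intro s hs
    rw [hJ] at hs
    obtain ⟨i, _, rfl⟩ := Finset.mem_image.1 hs
    exact htS _ (hkK i)
  have hJe : ∀ i, J.orderEmbOfFin hJc i = t (k i) := by
    intro i
    have h1 := Finset.orderEmbOfFin_unique hJc (f := fun i => t (k i)) (by
      intro x
      rw [hJ]
      exact Finset.mem_image_of_mem _ (Finset.mem_univ x)) hh0
    exact (congrFun h1 i).symm
  obtain ⟨g1, g2, g3⟩ := hJbad J hJc (hJS.trans hST)
  have hcJ := hcol J hJS hJc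
  simp only [Prod.mk.injEq] at hcJ
  obtain ⟨hce, hcb⟩ := hcJ
  have hεe : ∀ i j, εJ J i j = if e i j then 1 else -1 := by
    intro i j
    have h1 := congrFun (congrFun hce i) j
    rw [← h1]
    rcases g1 i j with h2 | h2
    · rw [h2]
      simp
    · rw [h2]
      simp
  have hbJ : bJ J ≡ b [MOD L] := by
    have h1 : (β : ℕ) = bJ J % L := by rw [← hcb]
    have h2 : (β : ℕ) ≡ bJ J [MOD L] := by
      rw [h1]
      exact Nat.mod_modEq _ _
    have h3 : (β : ℕ).Coprime L := by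
      rw [Nat.Coprime, h2.gcd_eq]
      exact g2
    rw [hbβ h3]
    exact h2.symm
  apply g3 cc
  obtain ⟨Y, hY⟩ : ∃ Y, Y = max (YJ J cc) (S.sup id) := ⟨_, rfl⟩
  have hYS : ∀ s ∈ S, s ≤ Y := fun s hs => by
    rw [hY]
    exact (Finset.le_sup (f := id) hs).trans (le_max_right _ _)
  refine (hv Y).mono ?_
  rintro n ⟨⟨m1, m2, m3⟩, mc⟩
  have hpr : ∀ i, (n + t (k i)).Prime := by
    intro i
    have h1 := (m3 (t (k i)) (by
      rw [abs_of_nonneg (Int.natCast_nonneg _)]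
      exact_mod_cast hYS _ (htS _ (hkK i)))).2 ⟨k i, hkI i, rfl⟩
    have h2 : ((n : ℤ) + (t (k i) : ℤ)).toNat = n + t (k i) := by
      rw [← Nat.cast_add, Int.toNat_natCast]
    rwa [h2] at h1
  refine ⟨fun i => ?_, fun i j hij => ?_, ?_⟩
  · rw [hJe]
    refine ⟨hpr i, ?_, ?_⟩
    · have h1 : n + t (k i) ≡ h₁ + t (k i) [MOD Λ] := (m1.of_dvd hΛa).add_right _
      exact ((h1.trans (hab _ (htS _ (hkK i)))).of_dvd hLΛ).trans (hb'3.trans hbJ.symm)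
    · have h1 := congrFun mc ⟨k i, hkK i⟩
      rw [← hkc i, ← h1]
  · rw [hJe, hJe, hasym n m1 _ (htS _ (hkK i)) _ (htS _ (hkK j)) (hh0 hij)
      (lt_of_le_of_lt (hYS _ (htS _ (hkK j))) m2) (hpr i)]
    rw [hidx _ (hkK i), hidx _ (hkK j), hcls, hcls, hwp]
    simp only
    rw [if_pos ⟨Fin.lt_def.1 (hem hij), by rw [hN]; exact (em j).2⟩, hemε i j hij, hεe]
  · have h1 : {p : ℕ | p.Prime ∧ |(p : ℤ) - n| ≤ YJ J cc} ⊆ (I.image (fun i => n + t i) : Finset ℕ) := by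
      rintro p ⟨hp1, hp2⟩
      have h2 : |(p : ℤ) - n| ≤ (Y : ℤ) := hp2.trans (by
        rw [hY]
        exact_mod_cast le_max_left _ _)
      have h3 := m3 ((p : ℤ) - n) h2
      have h4 : ((n : ℤ) + ((p : ℤ) - n)).toNat = p := by
        rw [add_sub_cancel, Int.toNat_natCast]
      rw [h4] at h3
      obtain ⟨i, hi, hi2⟩ := h3.1 hp1
      refine Finset.mem_coe.2 (Finset.mem_image.2 ⟨i, hi, ?_⟩)
      have h5 : (p : ℤ) = ((n + t i : ℕ) : ℤ) := by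
        push_cast
        linarith
      exact_mod_cast h5.symm
    have h2 := Set.ncard_le_ncard h1 (Finset.finite_toSet _)
    rw [Set.ncard_coe_finset] at h2
    refine (h2.trans Finset.card_image_le).trans ?_
    have h3 : I ⊆ range K' := fun i hi => Finset.mem_range.2 (hI1 i hi)
    have h4 := Finset.card_le_card h3
    rwa [Finset.card_range] at h4

/-- **a positive proportion of the tuples, primes of one colour** -/
theorem mainC {C : Type} [Fintype C] [Nonempty C] (κ : ℕ → C) (m L : ℕ) (hL : 0 < L) :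
    ∃ B : ℕ, ∀ δ : ℝ, 0 < δ → ∃ c : ℝ, 0 < c ∧ ∃ x₀ : ℕ, ∀ x : ℕ, x₀ ≤ x →
    ∀ V : Finset ℕ, (∀ v ∈ V, v ≤ x) → δ * x ≤ V.card →
      c * (x : ℝ) ^ m ≤ ({h : Fin m → ℕ | StrictMono h ∧ (∀ i, h i ∈ V) ∧ GoodC κ L B h}.ncard : ℝ) := by
  obtain ⟨K, Λ, B, hΛ0, hgood⟩ := exists_goodC κ m L hL
  exact ⟨B, fun δ hδ => main_gen hΛ0 (GoodC κ L B) hgood δ hδ⟩

end Pool.Agent.U974.PP
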